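import Mathlib

open Set

namespace Pool.Agent.Lib.MP_4fd693_gt

/-- A (proper) filter in the lattice of closed subsets of `X`. -/
def IsClosedFilter {X : Type} [TopologicalSpace X] (𝓕 : Set (Set X)) : Prop :=
  (∀ A ∈ 𝓕, IsClosed A) ∧ univ ∈ 𝓕 ∧ ∅ ∉ 𝓕 ∧ (∀ A ∈ 𝓕, ∀ B ∈ 𝓕, A ∩ B ∈ 𝓕) ∧
    ∀ A ∈ 𝓕, ∀ B, IsClosed B → A ⊆ B → B ∈ 𝓕

/-- `X` is alpha-realcompact (Dykes): no closed ultrafilter (maximal filter of closed sets) with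
the countable intersection property is free. -/
def AlphaRealcompact (X : Type) [TopologicalSpace X] : Prop :=
  ∀ 𝓕 : Set (Set X), Maximal IsClosedFilter 𝓕 →
    (∀ 𝓒 ⊆ 𝓕, 𝓒.Countable → (⋂₀ 𝓒).Nonempty) → (⋂₀ 𝓕).Nonempty

/-- Closed unbounded subset of a linear order without greatest element. -/
def IsClub {Ω : Type} [LinearOrder Ω] (C : Set Ω) : Prop :=
  (∀ a, ∃ c ∈ C, a < c) ∧
    ∀ a, (∃ b, b < a) → (∀ b, b < a → ∃ c ∈ C, b < c ∧ c < a) → a ∈ C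

/-- Jensen's diamond principle on `ω₁`. -/
def Diamond : Prop :=
  ∃ A : (Cardinal.aleph 1).ord.ToType → Set (Cardinal.aleph 1).ord.ToType, (∀ a, A a ⊆ Iio a) ∧
    ∀ S : Set (Cardinal.aleph 1).ord.ToType, ∀ C, IsClub C → ∃ a ∈ C, S ∩ Iio a = A a

end Pool.Agent.Lib.MP_4fd693_gt
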