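import Mathlib

/-!
Set-theoretic part: an injective choice of points for continuum many tasks on a space of size
continuum, each point lying above the countable set of its task in a well-order of type continuum.
-/

open Set Cardinal

namespace Pool.Agent.Lib.MP_4fd693_gt

/-- Injective choice of representatives in large sets. -/
theorem exists_injective_choice {T J : Type} (hT : #T ≤ #J) (F : T → Set J)
    (hF : ∀ t, #J ≤ #(F t)) : ∃ x : T → J, Function.Injective x ∧ ∀ t, x t ∈ F t := by
  classical
  obtain ⟨lo, wf, hord⟩ := exists_ord_eq_type_lt T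
  have key : ∀ (t : T) (g : ∀ s : T, s < t → J), ∃ y, y ∈ F t ∧ ∀ s (hs : s < t), g s hs ≠ y := by
    intro t g
    by_contra hcon
    push Not at hcon
    have hsub : F t ⊆ Set.range (fun s : Iio t => g s.1 s.2) := by
      intro y hy
      obtain ⟨s, hs, h⟩ := hcon y hy
      exact ⟨⟨s, hs⟩, h⟩
    have h1 : #(F t) ≤ #(Set.range (fun s : Iio t => g s.1 s.2)) := mk_le_mk_of_subset hsub
    have h2 : #(Set.range (fun s : Iio t => g s.1 s.2)) ≤ #(Iio t) := mk_range_le
    have h3 : #(Iio t) < #T := mk_Iio_lt t hord
    exact absurd ((hF t).trans (h1.trans h2)) (not_le.mpr (h3.trans_le hT))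
  let x : T → J := wf.wf.fix (fun t g => Classical.choose (key t g))
  have hx : ∀ t, x t = Classical.choose (key t (fun s _ => x s)) := by
    intro t
    exact wf.wf.fix_eq _ t
  have hx1 : ∀ t, x t ∈ F t := by
    intro t
    rw [hx t]
    exact (Classical.choose_spec (key t (fun s _ => x s))).1
  have hx2 : ∀ s t, s < t → x s ≠ x t := by
    intro s t hst
    rw [hx t]
    exact (Classical.choose_spec (key t (fun s _ => x s))).2 s hst
  refine ⟨x, ?_, hx1⟩
  intro s t hst
  rcases lt_trichotomy s t with h | h | h
  · exact absurd hst (hx2 s t h)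
  · exact h
  · exact absurd hst.symm (hx2 t s h)

/-- A set of size continuum carries a well-founded relation such that, for every countable
family, all but fewer than continuum many points lie above the whole family. -/
theorem exists_good_order (J : Type) (hJ : #J = continuum) : ∃ r : J → J → Prop,
    WellFounded r ∧ ∀ (a : ℕ → ℕ → J) (P : Set J),
      #P = continuum → #({y | y ∈ P ∧ ∀ n m, r (a n m) y} : Set J) = continuum := by
  classical
  obtain ⟨lo, wf, hord⟩ := exists_ord_eq_type_lt J
  refine ⟨fun x y => x < y, wf.wf, ?_⟩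
  intro a P hP
  have hcof : ℵ₀ < (continuum : Cardinal.{0}).ord.cof := by
    rw [← two_power_aleph0]
    exact lt_cof_ord_power le_rfl one_lt_two
  -- the bad set
  set B : Set J := ⋃ p : ℕ × ℕ, Set.Iic (a p.1 p.2) with hB
  have hIic : ∀ y : J, #(Set.Iic y) < continuum := by
    intro y
    have h1 : #(Set.Iio y) < #J := mk_Iio_lt y hord
    rw [← Set.Iio_insert]
    refine (mk_insert_le).trans_lt ?_
    rw [← hJ]
    exact add_lt_of_lt (by rw [hJ]; exact aleph0_le_continuum) h1
      (by rw [hJ]; exact one_lt_aleph0.trans_le aleph0_le_continuum)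
  have hBc : #B < continuum := by
    refine (mk_iUnion_le _).trans_lt ?_
    refine mul_lt_of_lt aleph0_le_continuum ?_ ?_
    · rw [mk_eq_aleph0]
      exact aleph0_lt_continuum
    · refine iSup_lt_of_lt_cof_ord ?_ (fun p => hIic _)
      rw [mk_eq_aleph0]
      exact hcof
  have hset : ({y | y ∈ P ∧ ∀ n m, a n m < y} : Set J) = P \ B := by
    ext y
    constructor
    · rintro ⟨h1, h2⟩
      refine ⟨h1, fun h3 => ?_⟩
      obtain ⟨p, hp⟩ := mem_iUnion.mp h3
      exact (lt_irrefl _ ((h2 p.1 p.2).trans_le hp))
    · rintro ⟨h1, h2⟩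
      refine ⟨h1, fun n m => ?_⟩
      by_contra h3
      exact h2 (mem_iUnion.mpr ⟨(n, m), not_lt.mp h3⟩)
  rw [hset]
  refine le_antisymm ?_ ?_
  · rw [← hP]; exact mk_le_mk_of_subset sdiff_subset
  · by_contra hlt
    rw [not_le] at hlt
    have h1 : #P ≤ #(P \ B : Set J) + #B := by
      refine le_trans (mk_le_mk_of_subset (fun y hy => ?_)) (mk_union_le _ _)
      by_cases h : y ∈ B
      · exact Or.inr h
      · exact Or.inl ⟨hy, h⟩
    have h2 : #(P \ B : Set J) + #B < continuum :=
      add_lt_of_lt aleph0_le_continuum hlt hBc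
    rw [hP] at h1
    exact absurd h1 (not_le.mpr h2)

end Pool.Agent.Lib.MP_4fd693_gt
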