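import Mathlib
import Pool.Agent.Lib.MP_4fd693_gt.SetTheory

/-!
Ladder systems on a metric space of size continuum.
-/

open Set Cardinal

namespace Pool.Agent.Lib.MP_4fd693_gt

/-- A ladder system: to each point `x` and index `k` that is good for `x` a point `z x k`, below `x`
in a well-founded relation and at distance less than `2 ^ (-k)` from `x`. -/
structure Ladder (J : Type) [MetricSpace J] where
  /-- the well-founded relation -/
  r : J → J → Prop
  wf : WellFounded r
  /-- the good indices -/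
  good : J → ℕ → Prop
  /-- the ladder points -/
  z : J → ℕ → J
  z_lt : ∀ x k, good x k → r (z x k) x
  z_dist : ∀ x k, good x k → dist (z x k) x < (1 / 2 : ℝ) ^ k

theorem mk_closed_uncountable {J : Type} [MetricSpace J] [CompleteSpace J]
    [SecondCountableTopology J] (hJ : #J = continuum) {P : Set J} (hP : IsClosed P)
    (hu : ¬ P.Countable) : #P = continuum := by
  refine le_antisymm ?_ ?_
  · rw [← hJ]; exact mk_set_le P
  · obtain ⟨f, hf, -, hinj⟩ := hP.exists_nat_bool_injection_of_not_countable hu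
    have h1 : #(ℕ → Bool) ≤ #(range f) := by
      rw [mk_range_eq f hinj]
    have h2 : #(range f) ≤ #P := mk_le_mk_of_subset hf
    have h3 : #(ℕ → Bool) = continuum := by simp
    rw [← h3]
    exact h1.trans h2

/-- Property (P) of a ladder system. -/
def Ladder.Good {J : Type} [MetricSpace J] (L : Ladder J) : Prop :=
  ∀ (A : ℕ → Set J), (∀ n, (A n).Countable) → ∀ P : Set J, IsClosed P → ¬ P.Countable →
    ∃ x ∈ P, (∀ n, x ∉ A n) ∧ ∀ n, x ∈ closure (A n) → ∀ k₀, ∃ k, k₀ ≤ k ∧ L.good x k ∧
      L.z x k ∈ A n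

theorem exists_ladder (J : Type) [MetricSpace J] [CompleteSpace J]
    [SecondCountableTopology J] (hJ : #J = continuum) : ∃ L : Ladder J, L.Good := by
  classical
  obtain ⟨r, wf, hr⟩ := exists_good_order J hJ
  obtain ⟨𝓑, h𝓑c, -, h𝓑⟩ := TopologicalSpace.exists_countable_basis J
  have hne : Nonempty J := by
    rw [← mk_ne_zero_iff, hJ]
    exact continuum_ne_zero
  -- enumerate the basis
  obtain ⟨B, hB⟩ : ∃ B : ℕ → Set J, range B = insert ∅ 𝓑 := by
    obtain ⟨B, hB⟩ := (h𝓑c.insert ∅).exists_eq_range (insert_nonempty _ _)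
    exact ⟨B, hB.symm⟩
  let dec : Set ℕ → Set J := fun S => (⋃ n ∈ S, B n)ᶜ
  have hBo : ∀ n, IsOpen (B n) := by
    intro n
    have : B n ∈ insert ∅ 𝓑 := by rw [← hB]; exact mem_range_self n
    rcases this with h | h
    · rw [h]; exact isOpen_empty
    · exact h𝓑.isOpen h
  have hdec : ∀ S, IsClosed (dec S) := by
    intro S
    exact (isOpen_biUnion (fun n _ => hBo n)).isClosed_compl
  have hcode : ∀ P : Set J, IsClosed P → ∃ S, dec S = P := by
    intro P hP
    refine ⟨{n | B n ⊆ Pᶜ}, ?_⟩
    have : (⋃ n ∈ {n | B n ⊆ Pᶜ}, B n) = Pᶜ := by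
      apply Subset.antisymm
      · exact iUnion₂_subset (fun n hn => hn)
      · intro y hy
        obtain ⟨v, hv, hyv, hvP⟩ := h𝓑.exists_subset_of_mem_open hy hP.isOpen_compl
        have : v ∈ range B := by rw [hB]; exact Or.inr hv
        obtain ⟨n, rfl⟩ := this
        exact mem_biUnion (show n ∈ {n | B n ⊆ Pᶜ} from hvP) hyv
    show (⋃ n ∈ {n | B n ⊆ Pᶜ}, B n)ᶜ = P
    rw [this, compl_compl]
  let T := {p : (ℕ → ℕ → J) × Set ℕ // ¬ (dec p.2).Countable}
  have hT : #T ≤ #J := by
    refine (mk_subtype_le _).trans ?_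
    rw [mk_prod]
    have h1 : #(ℕ → ℕ → J) = continuum := by
      rw [← power_def, ← power_def, hJ, mk_nat, continuum_power_aleph0, continuum_power_aleph0]
    have h2 : #(Set ℕ) = continuum := by simp
    rw [h1, h2, hJ]
    simp
  let F : T → Set J := fun t => {y | y ∈ dec t.1.2 ∧ ∀ n m, r (t.1.1 n m) y}
  have hF : ∀ t, #J ≤ #(F t) := by
    intro t
    rw [hJ]
    exact (hr t.1.1 (dec t.1.2) (mk_closed_uncountable hJ (hdec _) t.2)).ge
  obtain ⟨x, hinj, hx⟩ := exists_injective_choice hT F hF
  let good : J → ℕ → Prop := fun y k =>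
    ∃ t : T, x t = y ∧ y ∈ closure (range (t.1.1 (Nat.unpair k).1))
  have hz : ∀ y k, good y k → ∃ w, ∀ t : T, x t = y → w ∈ range (t.1.1 (Nat.unpair k).1) ∧
      dist w y < (1 / 2 : ℝ) ^ k := by
    rintro y k ⟨t, hty, hcl⟩
    obtain ⟨w, hw, hd⟩ := Metric.mem_closure_iff.mp hcl ((1 / 2 : ℝ) ^ k) (by positivity)
    refine ⟨w, fun t' ht' => ?_⟩
    have : t' = t := hinj (ht'.trans hty.symm)
    subst this
    exact ⟨hw, by rw [dist_comm]; exact hd⟩
  let z : J → ℕ → J := fun y k => if h : good y k then Classical.choose (hz y k h) else y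
  have hz' : ∀ y k, good y k → ∀ t : T, x t = y → z y k ∈ range (t.1.1 (Nat.unpair k).1) ∧
      dist (z y k) y < (1 / 2 : ℝ) ^ k := by
    intro y k h t ht
    have : z y k = Classical.choose (hz y k h) := dif_pos h
    rw [this]
    exact Classical.choose_spec (hz y k h) t ht
  refine ⟨⟨r, wf, good, z, ?_, ?_⟩, ?_⟩
  · rintro y k h
    obtain ⟨t, hty, hcl⟩ := id h
    obtain ⟨⟨m, hm⟩, -⟩ := hz' y k h t hty
    rw [← hm]
    have := (hx t).2 (Nat.unpair k).1 m
    rwa [hty] at this
  · rintro y k h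
    obtain ⟨t, hty, hcl⟩ := id h
    exact (hz' y k h t hty).2
  · intro A hA P hP hPu
    have ha : ∀ n, ∃ a : ℕ → J, (A n).Nonempty → range a = A n := by
      intro n
      by_cases hn : (A n).Nonempty
      · obtain ⟨a, ha⟩ := (hA n).exists_eq_range hn
        exact ⟨a, fun _ => ha.symm⟩
      · exact ⟨fun _ => Classical.arbitrary J, fun h => absurd h hn⟩
    choose a ha using ha
    obtain ⟨S, hS⟩ := hcode P hP
    let t : T := ⟨(a, S), by show ¬ (dec S).Countable; rw [hS]; exact hPu⟩
    have hxt := hx t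
    refine ⟨x t, ?_, ?_, ?_⟩
    · rw [← hS]; exact hxt.1
    · intro n hn
      rw [← ha n ⟨_, hn⟩] at hn
      obtain ⟨m, hm⟩ := hn
      have h1 : r (a n m) (x t) := hxt.2 n m
      rw [hm] at h1
      exact (wf.irrefl).irrefl _ h1
    · intro n hn k₀
      have hne : (A n).Nonempty := by
        by_contra h
        rw [not_nonempty_iff_eq_empty] at h
        rw [h, closure_empty] at hn
        exact hn
      refine ⟨Nat.pair n k₀, Nat.right_le_pair _ _, ?_, ?_⟩
      · refine ⟨t, rfl, ?_⟩
        rw [Nat.unpair_pair]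
        show x t ∈ closure (range (a n))
        rw [ha n hne]
        exact hn
      · have hg : good (x t) (Nat.pair n k₀) := by
          refine ⟨t, rfl, ?_⟩
          rw [Nat.unpair_pair]
          show x t ∈ closure (range (a n))
          rw [ha n hne]
          exact hn
        have := (hz' (x t) _ hg t rfl).1
        rw [Nat.unpair_pair] at this
        have h2 : z (x t) (Nat.pair n k₀) ∈ range (a n) := this
        rw [ha n hne] at h2
        exact h2

end Pool.Agent.Lib.MP_4fd693_gt
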