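import Mathlib
import Pool.Agent.Lib.MP_4fd693_gt.Ladder

/-!
The locally countable, locally compact, first countable refinement of a compact metric space
defined by a ladder system.
-/

open Set Topology

namespace Pool.Agent.Lib.MP_4fd693_gt

variable {J : Type} [MetricSpace J]

/-- `L.Mem x ε y`: the point `y` belongs to the basic neighbourhood `N(x, ε)`. -/
inductive Ladder.Mem (L : Ladder J) : J → ℝ → J → Prop
  | self (x : J) (ε : ℝ) : L.Mem x ε x
  | step (x : J) (ε : ℝ) (k : ℕ) (y : J) (h : L.good x k)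
      (hk : dist (L.z x k) x + (1 / 2 : ℝ) ^ k ≤ ε) (hy : L.Mem (L.z x k) ((1 / 2 : ℝ) ^ k) y) :
      L.Mem x ε y

variable (L : Ladder J)

theorem Ladder.Mem.mono {x : J} {ε δ : ℝ} {y : J} (h : L.Mem x ε y) (hε : ε ≤ δ) :
    L.Mem x δ y := by
  cases h with
  | self => exact Ladder.Mem.self _ _
  | step _ _ k _ h hk hy => exact Ladder.Mem.step _ _ k _ h (hk.trans hε) hy

theorem Ladder.Mem.dist_le {x : J} {ε : ℝ} {y : J} (h : L.Mem x ε y) (hε : 0 ≤ ε) :
    dist y x ≤ ε := by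
  induction h with
  | self => simpa using hε
  | step x ε k y h hk hy ih =>
    have h1 := ih (by positivity)
    have h2 := dist_triangle y (L.z x k) x
    linarith

/-- The underlying set with the refined topology. -/
def Ladder.Y (_ : Ladder J) : Type := J

/-- The point of `L.Y` given by a point of `J`. -/
def Ladder.toY (y : J) : L.Y := y

/-- The point of `J` given by a point of `L.Y`. -/
def Ladder.ofY (y : L.Y) : J := y

/-- The basic neighbourhood. -/
def Ladder.N (x : L.Y) (ε : ℝ) : Set L.Y := {y | L.Mem x ε y}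

instance : TopologicalSpace L.Y where
  IsOpen U := ∀ x ∈ U, ∃ ε > 0, L.N x ε ⊆ U
  isOpen_univ := fun x _ => ⟨1, one_pos, subset_univ _⟩
  isOpen_inter := by
    intro U V hU hV x hx
    obtain ⟨ε, hε, h1⟩ := hU x hx.1
    obtain ⟨δ, hδ, h2⟩ := hV x hx.2
    refine ⟨min ε δ, lt_min hε hδ, fun y hy => ⟨h1 ?_, h2 ?_⟩⟩
    · exact Ladder.Mem.mono L hy (min_le_left _ _)
    · exact Ladder.Mem.mono L hy (min_le_right _ _)
  isOpen_sUnion := by
    intro S hS x ⟨U, hU, hx⟩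
    obtain ⟨ε, hε, h⟩ := hS U hU x hx
    exact ⟨ε, hε, h.trans (subset_sUnion_of_mem hU)⟩

theorem Ladder.isOpen_iff {U : Set L.Y} : IsOpen U ↔ ∀ x ∈ U, ∃ ε > 0, L.N x ε ⊆ U := Iff.rfl

theorem Ladder.mem_N_self (x : L.Y) (ε : ℝ) : x ∈ L.N x ε := Ladder.Mem.self _ _

theorem Ladder.N_mono (x : L.Y) {ε δ : ℝ} (h : ε ≤ δ) : L.N x ε ⊆ L.N x δ :=
  fun _ hy => Ladder.Mem.mono L hy h

theorem Ladder.isOpen_N (x : L.Y) {ε : ℝ} (hε : 0 < ε) : IsOpen (L.N x ε) := by
  rw [L.isOpen_iff]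
  intro y hy
  change L.Mem x ε y at hy
  induction hy with
  | self x ε => exact ⟨ε, hε, Subset.rfl⟩
  | step x ε k y h hk hy ih =>
    obtain ⟨δ, hδ, h1⟩ := ih (by positivity)
    exact ⟨δ, hδ, fun w hw => Ladder.Mem.step _ _ k _ h hk (h1 hw)⟩

theorem Ladder.nhds_hasBasis (x : L.Y) : (𝓝 x).HasBasis (fun ε : ℝ => 0 < ε) (L.N x) := by
  refine ⟨fun U => ?_⟩
  rw [mem_nhds_iff]
  constructor
  · rintro ⟨V, hVU, hV, hx⟩
    obtain ⟨ε, hε, h⟩ := L.isOpen_iff.mp hV x hx
    exact ⟨ε, hε, h.trans hVU⟩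
  · rintro ⟨ε, hε, h⟩
    exact ⟨L.N x ε, h, L.isOpen_N x hε, L.mem_N_self x ε⟩

theorem Ladder.continuous_ofY : Continuous (L.ofY : L.Y → J) := by
  rw [continuous_def]
  intro U hU
  rw [L.isOpen_iff]
  intro x hx
  obtain ⟨ε, hε, h⟩ := Metric.isOpen_iff.mp hU x hx
  refine ⟨ε / 2, by positivity, fun y hy => h ?_⟩
  have h1 := Ladder.Mem.dist_le L hy (by positivity)
  exact lt_of_le_of_lt h1 (by linarith)

theorem Ladder.ofY_injective : Function.Injective (L.ofY : L.Y → J) := fun _ _ h => h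

instance : T2Space L.Y := T2Space.of_injective_continuous L.ofY_injective L.continuous_ofY

instance : FirstCountableTopology L.Y where
  nhds_generated_countable := by
    intro x
    have hb : (𝓝 x).HasBasis (fun _ : ℕ => True) (fun n => L.N x (1 / ((n : ℝ) + 1))) := by
      refine (L.nhds_hasBasis x).to_hasBasis ?_ ?_
      · intro ε hε
        obtain ⟨n, hn⟩ := exists_nat_one_div_lt hε
        exact ⟨n, trivial, L.N_mono x hn.le⟩
      · intro n _
        exact ⟨1 / ((n : ℝ) + 1), by positivity, Subset.rfl⟩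
    exact hb.isCountablyGenerated

/-- Points reachable from `x` along a list of indices. -/
def Ladder.path (L : Ladder J) : J → List ℕ → J
  | x, [] => x
  | x, k :: l => L.path (L.z x k) l

theorem Ladder.exists_path {x : J} {ε : ℝ} {y : J} (h : L.Mem x ε y) :
    ∃ l, L.path x l = y := by
  induction h with
  | self => exact ⟨[], rfl⟩
  | step x ε k y h hk hy ih =>
    obtain ⟨l, hl⟩ := ih
    exact ⟨k :: l, hl⟩

theorem Ladder.countable_N (x : L.Y) (ε : ℝ) : (L.N x ε).Countable := by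
  refine (countable_range (fun l => L.path x l)).mono ?_
  intro y hy
  exact L.exists_path hy

theorem Ladder.isCompact_N (x : L.Y) (ε : ℝ) : IsCompact (L.N x ε) := by
  revert ε
  refine L.wf.induction (C := fun x => ∀ ε : ℝ, IsCompact (L.N x ε)) x ?_
  intro x ih ε
  rw [isCompact_iff_ultrafilter_le_nhds]
  intro f hf
  by_cases hall : ∀ δ > 0, L.N x δ ∈ f
  · refine ⟨x, L.mem_N_self x ε, ?_⟩
    intro U hU
    obtain ⟨δ, hδ, h⟩ := (L.nhds_hasBasis x).mem_iff.mp hU
    exact Filter.mem_of_superset (hall δ hδ) h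
  · push Not at hall
    obtain ⟨δ, hδ, hnot⟩ := hall
    -- finitely many indices matter
    have hfin : {k : ℕ | L.good x k ∧ δ < dist (L.z x k) x + (1 / 2 : ℝ) ^ k}.Finite := by
      obtain ⟨K, hK⟩ := exists_pow_lt_of_lt_one (show (0 : ℝ) < δ / 2 by positivity)
        (show (1 / 2 : ℝ) < 1 by norm_num)
      refine (finite_lt_nat K).subset ?_
      rintro k ⟨hg, hk⟩
      by_contra hle
      have hKk : K ≤ k := not_lt.mp hle
      have h1 : (1 / 2 : ℝ) ^ k ≤ (1 / 2 : ℝ) ^ K :=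
        pow_le_pow_of_le_one (by norm_num) (by norm_num) hKk
      have h2 := L.z_dist x k hg
      linarith
    set S : Set ℕ := {k : ℕ | (L.good x k ∧ δ < dist (L.z x k) x + (1 / 2 : ℝ) ^ k) ∧
      dist (L.z x k) x + (1 / 2 : ℝ) ^ k ≤ ε} with hS
    have hSfin : S.Finite := hfin.subset (fun k hk => hk.1)
    have hcov : L.N x ε \ L.N x δ ⊆ ⋃ k ∈ S, L.N (L.z x k) ((1 / 2 : ℝ) ^ k) := by
      rintro y ⟨hy, hyn⟩
      change L.Mem x ε y at hy
      cases hy with
      | self => exact absurd (L.mem_N_self x δ) hyn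
      | step _ _ k _ h hk hy =>
        refine mem_biUnion (show k ∈ S from ⟨⟨h, ?_⟩, hk⟩) hy
        by_contra hle
        exact hyn (Ladder.Mem.step _ _ k _ h (not_lt.mp hle) hy)
    have h1 : L.N x ε ∈ (f : Filter L.Y) := Filter.le_principal_iff.mp hf
    have h2 : (L.N x δ)ᶜ ∈ (f : Filter L.Y) := Ultrafilter.compl_mem_iff_notMem.mpr hnot
    have h3 : (⋃ k ∈ S, L.N (L.z x k) ((1 / 2 : ℝ) ^ k)) ∈ (f : Filter L.Y) :=
      Filter.mem_of_superset (Filter.inter_mem h1 h2) hcov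
    obtain ⟨k, hkS, hk⟩ := (Ultrafilter.finite_biUnion_mem_iff hSfin).mp h3
    have hcomp := ih (L.z x k) (L.z_lt x k hkS.1.1) ((1 / 2 : ℝ) ^ k)
    obtain ⟨y, hy, hle⟩ := isCompact_iff_ultrafilter_le_nhds.mp hcomp f
      (Filter.le_principal_iff.mpr hk)
    exact ⟨y, Ladder.Mem.step _ _ k _ hkS.1.1 hkS.2 hy, hle⟩

instance : LocallyCompactSpace L.Y := by
  have : WeaklyLocallyCompactSpace L.Y :=
    ⟨fun x => ⟨L.N x 1, L.isCompact_N x 1, (L.isOpen_N x one_pos).mem_nhds (L.mem_N_self x 1)⟩⟩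
  infer_instance

theorem Ladder.countable_of_isCompact {K : Set L.Y} (hK : IsCompact K) : K.Countable := by
  obtain ⟨t, ht, hcov⟩ := hK.elim_nhds_subcover (fun x => L.N x 1)
    (fun x _ => (L.isOpen_N x one_pos).mem_nhds (L.mem_N_self x 1))
  exact (t.countable_toSet.biUnion (fun x _ => L.countable_N x 1)).mono hcov

/-- The key property of the topology coming from property (P) of the ladder system. -/
theorem Ladder.Good.exists_mem_closure {L : Ladder J} (hL : L.Good) (A : ℕ → Set J)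
    (hA : ∀ n, (A n).Countable) (P : Set J) (hP : IsClosed P) (hu : ¬ P.Countable) :
    ∃ x ∈ P, (∀ n, x ∉ A n) ∧
      ∀ n, x ∈ closure (A n) → L.toY x ∈ closure ((L.ofY : L.Y → J) ⁻¹' (A n)) := by
  obtain ⟨x, hxP, hxA, hx⟩ := hL A hA P hP hu
  refine ⟨x, hxP, hxA, fun n hn => ?_⟩
  rw [mem_closure_iff_nhds_basis (L.nhds_hasBasis (L.toY x))]
  intro ε hε
  obtain ⟨K, hK⟩ := exists_pow_lt_of_lt_one (show (0 : ℝ) < ε / 2 by positivity)
    (show (1 / 2 : ℝ) < 1 by norm_num)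
  obtain ⟨k, hKk, hg, hz⟩ := hx n hn K
  have h1 : (1 / 2 : ℝ) ^ k ≤ (1 / 2 : ℝ) ^ K :=
    pow_le_pow_of_le_one (by norm_num) (by norm_num) hKk
  have h2 := L.z_dist x k hg
  refine ⟨L.toY (L.z x k), hz, ?_⟩
  have h3 : dist (L.z x k) x + (1 / 2 : ℝ) ^ k ≤ ε := by linarith
  exact Ladder.Mem.step _ _ k _ hg h3 (Ladder.Mem.self _ _)

end Pool.Agent.Lib.MP_4fd693_gt
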