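import Mathlib
import Pool.Agent.Lib.MP_4fd693_gt.Space

/-!
A first countable compactification of the space `L.Y`.
-/

open Set Topology

namespace Pool.Agent.Lib.MP_4fd693_gt

variable {J : Type} [MetricSpace J] (L : Ladder J)

/-- The subset of `OnePoint L.Y × J` underlying the compactification. -/
def Ladder.ZSet : Set (OnePoint L.Y × J) := {p | ∀ y : L.Y, p.1 = (y : OnePoint L.Y) → L.ofY y = p.2}

/-- The compactification. -/
abbrev Ladder.Z : Type := L.ZSet

theorem Ladder.isClosed_ZSet : IsClosed L.ZSet := by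
  rw [← isOpen_compl_iff, isOpen_iff_mem_nhds]
  rintro ⟨p, t⟩ hp
  have hp' : ∃ y : L.Y, p = (y : OnePoint L.Y) ∧ L.ofY y ≠ t := by
    by_contra hcon
    push Not at hcon
    exact hp (fun y hy => hcon y hy)
  obtain ⟨y, rfl, hy⟩ := hp'
  obtain ⟨U, V, hU, hV, hyU, htV, hdisj⟩ := t2_separation hy
  have hO : IsOpen (((↑) : L.Y → OnePoint L.Y) '' (L.ofY ⁻¹' U)) := by
    rw [OnePoint.isOpen_image_coe]
    exact hU.preimage L.continuous_ofY
  refine Filter.mem_of_superset ((hO.prod hV).mem_nhds ⟨⟨y, hyU, rfl⟩, htV⟩) ?_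
  rintro ⟨q, s⟩ ⟨⟨w, hw, hwq⟩, hs⟩ hmem
  have h1 : L.ofY w = s := hmem w hwq.symm
  have h2 : L.ofY w ∈ U := hw
  rw [h1] at h2
  exact Set.disjoint_left.mp hdisj h2 hs

instance [CompactSpace J] : CompactSpace L.Z :=
  isCompact_iff_compactSpace.mp L.isClosed_ZSet.isCompact

instance : T2Space L.Z := inferInstance

/-- The embedding of `L.Y` into its compactification. -/
def Ladder.ι (y : L.Y) : L.Z := ⟨((y : OnePoint L.Y), L.ofY y), fun w hw => by
  have : y = w := OnePoint.coe_injective hw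
  rw [this]⟩

theorem Ladder.continuous_ι : Continuous L.ι := by
  refine Continuous.subtype_mk ?_ _
  exact OnePoint.continuous_coe.prodMk L.continuous_ofY

theorem Ladder.ι_injective : Function.Injective L.ι := by
  intro y w h
  have h1 : ((y : OnePoint L.Y), L.ofY y) = ((w : OnePoint L.Y), L.ofY w) := congrArg Subtype.val h
  exact congrArg Prod.snd h1

theorem Ladder.isOpenMap_ι : IsOpenMap L.ι := by
  intro U hU
  have h1 : IsOpen (((↑) : L.Y → OnePoint L.Y) '' U) := by
    rw [OnePoint.isOpen_image_coe]; exact hU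
  have h2 : L.ι '' U = (fun q : L.Z => q.1.1) ⁻¹' (((↑) : L.Y → OnePoint L.Y) '' U) := by
    ext q
    constructor
    · rintro ⟨y, hy, rfl⟩
      exact ⟨y, hy, rfl⟩
    · rintro ⟨y, hy, hyq⟩
      refine ⟨y, hy, ?_⟩
      apply Subtype.ext
      refine Prod.ext hyq ?_
      exact q.2 y hyq.symm
  rw [h2]
  exact h1.preimage (continuous_fst.comp continuous_subtype_val)

theorem Ladder.isOpenEmbedding_ι : IsOpenEmbedding L.ι :=
  IsOpenEmbedding.of_continuous_injective_isOpenMap L.continuous_ι L.ι_injective L.isOpenMap_ι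

/-- The point at infinity over `t`. -/
def Ladder.inf (t : J) : L.Z := ⟨(OnePoint.infty, t), fun w hw => by
  exact absurd hw (OnePoint.infty_ne_coe w)⟩

theorem Ladder.inf_hasBasis (t : J) : (𝓝 (L.inf t)).HasBasis (fun _ : ℕ => True)
    (fun n => {q : L.Z | dist q.1.2 t < 1 / ((n : ℝ) + 1) ∧
      ∀ y : L.Y, q.1.1 = (y : OnePoint L.Y) → y ∉ L.N (L.toY t) 1}) := by
  have hopen : ∀ n : ℕ, IsOpen {q : L.Z | dist q.1.2 t < 1 / ((n : ℝ) + 1) ∧
      ∀ y : L.Y, q.1.1 = (y : OnePoint L.Y) → y ∉ L.N (L.toY t) 1} := by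
    intro n
    have h1 : IsOpen {q : L.Z | dist q.1.2 t < 1 / ((n : ℝ) + 1)} := by
      refine isOpen_lt ?_ continuous_const
      exact (continuous_snd.comp continuous_subtype_val).dist continuous_const
    have h2 : IsOpen {q : L.Z | ∀ y : L.Y, q.1.1 = (y : OnePoint L.Y) → y ∉ L.N (L.toY t) 1} := by
      have h3 : IsOpen (((↑) : L.Y → OnePoint L.Y) '' (L.N (L.toY t) 1))ᶜ := by
        rw [OnePoint.isOpen_compl_image_coe]
        exact ⟨(L.isCompact_N _ _).isClosed, L.isCompact_N _ _⟩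
      have h4 := h3.preimage
        ((continuous_fst.comp continuous_subtype_val : Continuous (fun q : L.Z => q.1.1)))
      convert h4 using 1
      ext q
      constructor
      · rintro h ⟨y, hy, hyq⟩
        exact h y hyq.symm hy
      · intro h y hyq hy
        exact h ⟨y, hy, hyq.symm⟩
    exact h1.inter h2
  refine ⟨fun U => ⟨fun hU => ?_, ?_⟩⟩
  · -- find a basic set inside `U`
    obtain ⟨U', hU', hUU'⟩ := mem_nhds_subtype _ _ _ |>.mp hU
    obtain ⟨W, hW, V, hV, hWV⟩ := mem_nhds_prod_iff.mp hU'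
    obtain ⟨W', hW'W, hW'o, hW'm⟩ := mem_nhds_iff.mp hW
    obtain ⟨-, hC⟩ := (OnePoint.isOpen_iff_of_mem hW'm).mp hW'o
    obtain ⟨ε, hε, hball⟩ := Metric.mem_nhds_iff.mp hV
    have hC' : IsCompact ((((↑) : L.Y → OnePoint L.Y) ⁻¹' W')ᶜ \ L.N (L.toY t) 1) :=
      hC.diff (L.isOpen_N _ one_pos)
    have hC'' := (hC'.image L.continuous_ofY).isClosed
    have hnot : t ∉ L.ofY '' ((((↑) : L.Y → OnePoint L.Y) ⁻¹' W')ᶜ \ L.N (L.toY t) 1) := by
      rintro ⟨y, ⟨-, hy⟩, hyt⟩
      have : y = L.toY t := hyt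
      rw [this] at hy
      exact hy (L.mem_N_self _ _)
    obtain ⟨δ, hδ, hδs⟩ := Metric.isOpen_iff.mp hC''.isOpen_compl t hnot
    obtain ⟨n, hn⟩ := exists_nat_one_div_lt (lt_min hε hδ)
    refine ⟨n, trivial, ?_⟩
    rintro ⟨⟨q1, q2⟩, hq⟩ ⟨hd, hN⟩
    apply hUU'
    apply hWV
    refine ⟨hW'W ?_, hball ?_⟩
    · induction q1 using OnePoint.rec with
      | infty => exact hW'm
      | coe y =>
        by_contra hyW
        have h1 : L.ofY y = q2 := hq y rfl
        have h2 : L.ofY y ∈ Metric.ball t δ := by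
          rw [h1]
          exact hd.trans (hn.trans_le (min_le_right _ _))
        exact hδs h2 ⟨y, ⟨hyW, hN y rfl⟩, rfl⟩
    · exact hd.trans (hn.trans_le (min_le_left _ _))
  · rintro ⟨n, -, hn⟩
    refine Filter.mem_of_superset ((hopen n).mem_nhds ?_) hn
    refine ⟨?_, ?_⟩
    · show dist t t < _
      rw [dist_self]
      positivity
    · intro y hy
      exact absurd hy (OnePoint.infty_ne_coe y)

instance : FirstCountableTopology L.Z where
  nhds_generated_countable := by
    rintro ⟨⟨p, t⟩, hp⟩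
    induction p using OnePoint.rec with
    | infty => exact (L.inf_hasBasis t).isCountablyGenerated
    | coe y =>
      have h1 : L.ofY y = t := hp y rfl
      subst h1
      have h2 : 𝓝 (L.ι y) = Filter.map L.ι (𝓝 y) := (L.isOpenEmbedding_ι.map_nhds_eq y).symm
      show (𝓝 (L.ι y)).IsCountablyGenerated
      rw [h2]
      infer_instance

end Pool.Agent.Lib.MP_4fd693_gt
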