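import Mathlib

/-!
Definitions used in the statements for weakly first countable compacta, and two basic lemmas.
-/

open Set Topology

namespace Pool.Agent.Lib.MP_4fd693_gt

/-- A space is weakly first countable (Arhangel'skii) if one can assign to each point `x` a
decreasing sequence of sets containing `x` such that a set `U` is open if and only if for every
`x ∈ U` some member of the sequence of `x` is contained in `U`. -/
def WeaklyFirstCountable (X : Type) [TopologicalSpace X] : Prop :=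
  ∃ B : X → ℕ → Set X, (∀ x, Antitone (B x)) ∧ (∀ x n, x ∈ B x n) ∧
    ∀ U : Set X, IsOpen U ↔ ∀ x ∈ U, ∃ n, B x n ⊆ U

/-- A space is weakly theta-refinable if every open cover has an open refinement that is a union
of countably many families such that each point lies, for some `n`, in at least one and only
finitely many members of the `n`-th family. -/
def WeaklyThetaRefinable (X : Type) [TopologicalSpace X] : Prop :=
  ∀ 𝒰 : Set (Set X), (∀ U ∈ 𝒰, IsOpen U) → ⋃₀ 𝒰 = univ →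
    ∃ 𝒱 : ℕ → Set (Set X), (∀ n, ∀ V ∈ 𝒱 n, IsOpen V ∧ ∃ U ∈ 𝒰, V ⊆ U) ∧
      ∀ x, ∃ n, {V | V ∈ 𝒱 n ∧ x ∈ V}.Nonempty ∧ {V | V ∈ 𝒱 n ∧ x ∈ V}.Finite

/-- First countable spaces are weakly first countable. -/
theorem weaklyFirstCountable_of_firstCountable (X : Type) [TopologicalSpace X]
    [FirstCountableTopology X] : WeaklyFirstCountable X := by
  have h : ∀ x : X, ∃ B : ℕ → Set X, (𝓝 x).HasAntitoneBasis B :=
    fun x => (𝓝 x).exists_antitone_basis
  choose B hB using h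
  refine ⟨B, fun x => (hB x).antitone, fun x n => mem_of_mem_nhds ((hB x).mem n), fun U => ?_⟩
  rw [isOpen_iff_mem_nhds]
  constructor
  · intro h x hx
    obtain ⟨n, -, hn⟩ := (hB x).toHasBasis.mem_iff.mp (h x hx)
    exact ⟨n, hn⟩
  · intro h x hx
    obtain ⟨n, hn⟩ := h x hx
    exact Filter.mem_of_superset ((hB x).mem n) hn

/-- Weak theta-refinability is a topological property. -/
theorem WeaklyThetaRefinable.of_homeomorph {X Y : Type} [TopologicalSpace X] [TopologicalSpace Y]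
    (e : X ≃ₜ Y) (h : WeaklyThetaRefinable X) : WeaklyThetaRefinable Y := by
  intro 𝒰 h𝒰 hcov
  obtain ⟨𝒱, h1, h2⟩ := h ((fun U => e ⁻¹' U) '' 𝒰)
    (by rintro _ ⟨U, hU, rfl⟩; exact (h𝒰 U hU).preimage e.continuous)
    (by
      rw [sUnion_image, ← preimage_iUnion₂, ← sUnion_eq_biUnion, hcov, preimage_univ])
  refine ⟨fun n => (fun V => e.symm ⁻¹' V) '' (𝒱 n), ?_, ?_⟩
  · rintro n _ ⟨V, hV, rfl⟩
    obtain ⟨hVo, _, ⟨U, hU, rfl⟩, hVU⟩ := h1 n V hV
    refine ⟨hVo.preimage e.symm.continuous, U, hU, ?_⟩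
    intro y hy
    have := hVU hy
    simpa using this
  · intro y
    obtain ⟨n, hne, hfin⟩ := h2 (e.symm y)
    refine ⟨n, ?_, ?_⟩
    · obtain ⟨V, hV, hy⟩ := hne
      exact ⟨e.symm ⁻¹' V, ⟨V, hV, rfl⟩, hy⟩
    · refine (hfin.image (fun V => e.symm ⁻¹' V)).subset ?_
      rintro _ ⟨⟨V, hV, rfl⟩, hy⟩
      exact ⟨V, ⟨hV, hy⟩, rfl⟩

/-- In a locally countable weakly theta-refinable space the whole space is a countable union of
relatively discrete sets. -/
theorem sigma_discrete_of_weaklyThetaRefinable {X : Type} [TopologicalSpace X]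
    (hX : ∀ x : X, ∃ U, IsOpen U ∧ x ∈ U ∧ U.Countable) (h : WeaklyThetaRefinable X) :
    ∃ D : ℕ → Set X, (∀ n, ∀ x ∈ D n, ∃ U, IsOpen U ∧ x ∈ U ∧ U ∩ D n ⊆ {x}) ∧
      ∀ x, ∃ n, x ∈ D n := by
  classical
  obtain ⟨𝒱, h1, h2⟩ := h {U | IsOpen U ∧ U.Countable} (fun U hU => hU.1) (by
    rw [eq_univ_iff_forall]
    intro x
    obtain ⟨U, hU, hx, hc⟩ := hX x
    exact ⟨U, ⟨hU, hc⟩, hx⟩)
  let M : ℕ → X → Set (Set X) := fun n x => {V | V ∈ 𝒱 n ∧ x ∈ V}
  have hclass : ∀ (n : ℕ) (S : Set (Set X)), ∃ f : X → ℕ, S.Nonempty →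
      InjOn f {y | M n y = S} := by
    intro n S
    by_cases hS : S.Nonempty ∧ {y | M n y = S}.Nonempty
    · obtain ⟨V, hV⟩ := hS.1
      have hcount : {y | M n y = S}.Countable := by
        obtain ⟨y₀, hy₀⟩ := hS.2
        have hV' : V ∈ M n y₀ := by rw [show M n y₀ = S from hy₀]; exact hV
        obtain ⟨-, U, ⟨-, hUc⟩, hVU⟩ := h1 n V hV'.1
        refine hUc.mono ?_
        intro y hy
        have : V ∈ M n y := by rw [show M n y = S from hy]; exact hV
        exact hVU this.2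
      obtain ⟨f, hf⟩ := Set.countable_iff_exists_injOn.mp hcount
      exact ⟨f, fun _ => hf⟩
    · refine ⟨fun _ => 0, fun hSn => ?_⟩
      have : ¬ {y | M n y = S}.Nonempty := fun hh => hS ⟨hSn, hh⟩
      rw [not_nonempty_iff_eq_empty] at this
      rw [this]
      exact injOn_empty _
  choose f hf using hclass
  obtain ⟨g, hg⟩ := exists_surjective_nat (ℕ × ℕ × ℕ)
  let D : ℕ × ℕ × ℕ → Set X := fun p =>
    {x | (M p.1 x).Nonempty ∧ (M p.1 x).Finite ∧ (M p.1 x).ncard = p.2.1 ∧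
      f p.1 (M p.1 x) x = p.2.2}
  refine ⟨fun i => D (g i), ?_, ?_⟩
  · rintro i x ⟨hne, hfin, hcard, hfx⟩
    set n := (g i).1 with hn
    refine ⟨⋂₀ M n x, hfin.isOpen_sInter (fun V hV => (h1 n V hV.1).1), fun V hV => hV.2, ?_⟩
    rintro y ⟨hyU, hyne, hyfin, hycard, hfy⟩
    have hsub : M n x ⊆ M n y := fun V hV => ⟨hV.1, hyU V hV⟩
    have heq : M n x = M n y :=
      Set.eq_of_subset_of_ncard_le hsub (by rw [hcard, hycard]) hyfin
    have hinj := hf n (M n x) hne
    refine (hinj (show M n y = M n x from heq.symm) rfl ?_)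
    rw [heq] at hfx ⊢
    exact hfy.trans hfx.symm
  · intro x
    obtain ⟨n, hne, hfin⟩ := h2 x
    obtain ⟨i, hi⟩ := hg (n, (M n x).ncard, f n (M n x) x)
    refine ⟨i, ?_⟩
    show x ∈ D (g i)
    rw [hi]
    exact ⟨hne, hfin, rfl, rfl⟩

end Pool.Agent.Lib.MP_4fd693_gt
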