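import Pool.Agent.Lib.MP_4fd693_gt.DiaMain

open Set Topology Filter

namespace Pool.Agent.Lib.MP_4fd693_gt.Dia

/-- Abstract consequence: a locally compact Hausdorff topology on a well-order of type `ω₁` with a
height function yields the desired compactum. -/
theorem compactum {Ω : Type} [LinearOrder Ω] [Uncountable Ω]
    (hub : ∀ S : Set Ω, S.Countable → ∃ b, ∀ s ∈ S, s < b)
    [TopologicalSpace Ω] [T2Space Ω] [WeaklyLocallyCompactSpace Ω] (h : Ω → ℕ)
    (F : Ω → ℕ → Set Ω) (hF0 : ∀ x, Antitone (F x)) (hF1 : ∀ x m, x ∈ F x m)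
    (hT : ∀ U : Set Ω, IsOpen U ↔ ∀ x ∈ U, ∃ m, F x m ⊆ U)
    (hcb : ∀ C : Set Ω, IsCompact C → ∃ n, ∀ t ∈ C, h t ≤ n)
    (hbc : ∀ C : Set Ω, IsClosed C → ∀ n, (∀ t ∈ C, h t ≤ n) → IsCompact C)
    (hop : ∀ x : Ω, IsOpen {t : Ω | t < x})
    (hun : ∀ x, ∃ y, x < y ∧ h y = 0)
    (htail : ∀ S C : Set Ω, IsClosed C → S ⊆ C → (∀ x, ∃ t ∈ S, x < t) →
      (∀ t ∈ S, h t = 0) → ∃ β, ∀ x, β ≤ x → x ∈ C) :
    T2Space (OnePoint Ω) ∧ CompactSpace (OnePoint Ω) ∧ WeaklyFirstCountable (OnePoint Ω) ∧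
      ∃ s : Set (OnePoint Ω), ¬ AlphaRealcompact s := by
  classical
  refine ⟨inferInstance, inferInstance, ?_, ?_⟩
  · -- weak first countability
    refine ⟨fun p n => match p with
      | none => {OnePoint.infty} ∪ (fun t : Ω => (t : OnePoint Ω)) '' {t | n ≤ h t}
      | some x => (fun t : Ω => (t : OnePoint Ω)) '' (F x n), ?_, ?_, ?_⟩
    · rintro (_ | x) m n hmn
      · rintro t (ht | ⟨t, ht, rfl⟩)
        · left; exact ht
        · right; exact ⟨t, le_trans hmn ht, rfl⟩
      · exact image_mono (hF0 x hmn)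
    · rintro (_ | x) n
      · left; rfl
      · exact ⟨x, hF1 x n, rfl⟩
    · intro U
      rw [OnePoint.isOpen_def]
      constructor
      · rintro ⟨h1, h2⟩ (_ | x) hx
        · obtain ⟨n, hn⟩ := hcb _ (h1 hx)
          refine ⟨n + 1, ?_⟩
          rintro t (ht | ⟨t, ht, rfl⟩)
          · rw [mem_singleton_iff.1 ht]; exact hx
          · by_contra hcon
            have := hn t hcon
            have ht : n + 1 ≤ h t := ht
            omega
        · obtain ⟨m, hm⟩ := (hT _).1 h2 x hx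
          refine ⟨m, ?_⟩
          rintro _ ⟨t, ht, rfl⟩
          exact hm ht
      · intro hU
        have hopen : IsOpen ((fun t : Ω => (t : OnePoint Ω)) ⁻¹' U) := by
          rw [hT]
          intro x hx
          obtain ⟨m, hm⟩ := hU (x : OnePoint Ω) hx
          exact ⟨m, fun t ht => hm ⟨t, ht, rfl⟩⟩
        refine ⟨fun hinf => ?_, hopen⟩
        obtain ⟨n, hn⟩ := hU _ hinf
        refine hbc _ hopen.isClosed_compl n ?_
        intro t ht
        by_contra hcon
        apply ht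
        apply hn
        right
        exact ⟨t, (not_le.1 hcon).le, rfl⟩
  · -- the subspace of points of height zero
    let O : Set (OnePoint Ω) := (fun t : Ω => (t : OnePoint Ω)) '' {t | h t = 0}
    let u : O → Ω := fun p => p.2.choose
    have hu0 : ∀ p : O, h (u p) = 0 := fun p => p.2.choose_spec.1
    have hu1 : ∀ p : O, ((u p : Ω) : OnePoint Ω) = p.1 := fun p => p.2.choose_spec.2
    have hpt : ∀ t : Ω, h t = 0 → ∃ p : O, u p = t := by
      intro t ht
      refine ⟨⟨(t : OnePoint Ω), t, ht, rfl⟩, ?_⟩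
      have := hu1 ⟨(t : OnePoint Ω), t, ht, rfl⟩
      exact OnePoint.coe_injective this
    -- tails are closed
    have htc : ∀ a : Ω, IsClosed {p : O | a ≤ u p} := by
      intro a
      have h1 : IsOpen ((fun t : Ω => (t : OnePoint Ω)) '' {t | t < a}) :=
        OnePoint.isOpenEmbedding_coe.isOpenMap _ (hop a)
      have h2 : {p : O | a ≤ u p} =
          (Subtype.val ⁻¹' ((fun t : Ω => (t : OnePoint Ω)) '' {t | t < a}))ᶜ := by
        ext p
        simp only [mem_ofPred_eq, mem_compl_iff, mem_preimage, mem_image, not_exists, not_and]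
        constructor
        · intro hp t ht he
          have : t = u p := OnePoint.coe_injective (he.trans (hu1 p).symm)
          rw [this] at ht
          exact absurd ht (not_lt.2 hp)
        · intro hp
          by_contra hcon
          exact hp (u p) (not_le.1 hcon) (hu1 p)
      rw [h2]
      exact (h1.preimage continuous_subtype_val).isClosed_compl
    let 𝓕 : Set (Set O) := {G | IsClosed G ∧ ∃ a : Ω, ∀ p : O, a ≤ u p → p ∈ G}
    have hdich : ∀ G : Set O, IsClosed G → G ∉ 𝓕 → ∃ a : Ω, ∀ p ∈ G, u p < a := by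
      intro G hG hGF
      by_contra hcon
      push Not at hcon
      obtain ⟨K, hK, hKG⟩ := isClosed_induced_iff.1 hG
      apply hGF
      refine ⟨hG, ?_⟩
      obtain ⟨β, hβ⟩ := htail (u '' G) ((fun t : Ω => (t : OnePoint Ω)) ⁻¹' K)
        (hK.preimage OnePoint.continuous_coe) (by
          rintro _ ⟨p, hp, rfl⟩
          show ((u p : Ω) : OnePoint Ω) ∈ K
          rw [hu1]
          rw [← hKG] at hp
          exact hp) (by
          intro x
          obtain ⟨y, hy, -⟩ := hun x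
          obtain ⟨p, hp, hpy⟩ := hcon y
          exact ⟨u p, ⟨p, hp, rfl⟩, lt_of_lt_of_le hy hpy⟩) (by
          rintro _ ⟨p, hp, rfl⟩; exact hu0 p)
      refine ⟨β, fun p hp => ?_⟩
      rw [← hKG]
      have := hβ (u p) hp
      show p.1 ∈ K
      rw [← hu1 p]
      exact this
    refine ⟨O, fun hα => ?_⟩
    have hcf : IsClosedFilter 𝓕 := by
      refine ⟨fun G hG => hG.1, ⟨isClosed_univ, ?_⟩, ?_, ?_, ?_⟩
      · obtain ⟨a⟩ : Nonempty Ω := by
          by_contra hcon
          rw [not_nonempty_iff] at hcon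
          exact not_countable (α := Ω) inferInstance
        exact ⟨a, fun p _ => mem_univ p⟩
      · rintro ⟨-, a, ha⟩
        obtain ⟨y, hy, hy0⟩ := hun a
        obtain ⟨p, hp⟩ := hpt y hy0
        exact ha p (by rw [hp]; exact hy.le)
      · rintro G ⟨hG, a, ha⟩ G' ⟨hG', b, hb⟩
        exact ⟨hG.inter hG', max a b, fun p hp =>
          ⟨ha p ((le_max_left _ _).trans hp), hb p ((le_max_right _ _).trans hp)⟩⟩
      · rintro G ⟨hG, a, ha⟩ G' hG' hGG'
        exact ⟨hG', a, fun p hp => hGG' (ha p hp)⟩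
    have hmax : Maximal IsClosedFilter 𝓕 := by
      refine ⟨hcf, fun 𝓖 h𝓖 hle G hG => ?_⟩
      by_contra hcon
      obtain ⟨a, ha⟩ := hdich G (h𝓖.1 G hG) hcon
      have h1 : {p : O | a ≤ u p} ∈ 𝓖 := hle ⟨htc a, a, fun p hp => hp⟩
      have h2 := h𝓖.2.2.2.1 _ hG _ h1
      have h3 : G ∩ {p : O | a ≤ u p} = ∅ := by
        ext p
        simp only [mem_inter_iff, mem_ofPred_eq, mem_empty_iff_false, iff_false, not_and, not_le]
        exact ha p
      rw [h3] at h2
      exact h𝓖.2.2.1 h2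
    obtain ⟨p, hp⟩ := hα 𝓕 hmax (by
      intro 𝓒 h𝓒 hcount
      have : ∀ G : Set O, ∃ a : Ω, G ∈ 𝓒 → ∀ p : O, a ≤ u p → p ∈ G := by
        intro G
        by_cases hG : G ∈ 𝓒
        · obtain ⟨-, a, ha⟩ := h𝓒 hG
          exact ⟨a, fun _ => ha⟩
        · obtain ⟨-, a, -⟩ := hcf.2.1
          exact ⟨a, fun h => absurd h hG⟩
      choose g hg using this
      obtain ⟨b, hb⟩ := hub _ (hcount.image g)
      obtain ⟨y, hy, hy0⟩ := hun b
      obtain ⟨p, hp⟩ := hpt y hy0
      refine ⟨p, fun G hG => hg G hG p ?_⟩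
      rw [hp]
      exact ((hb _ (mem_image_of_mem g hG)).trans hy).le)
    obtain ⟨y, hy, -⟩ := hun (u p)
    have h1 : p ∈ {p : O | y ≤ u p} := hp _ ⟨htc y, y, fun p hp => hp⟩
    exact absurd h1 (not_le.2 hy)

/-- Under diamond there is a weakly first countable compactum that is not hereditarily
alpha-realcompact. -/
theorem of_diamond (hD : Diamond) : ∃ (X : Type) (_ : TopologicalSpace X), T2Space X ∧
    CompactSpace X ∧ WeaklyFirstCountable X ∧ ∃ s : Set X, ¬ AlphaRealcompact s := by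
  obtain ⟨A, hA1, hA2⟩ := hD
  have hc : ∀ x : (Cardinal.aleph 1).ord.ToType, (Iio x).Countable := by
    intro x
    have := Cardinal.mk_Iio_toType_ord_lt x
    have h2 : Cardinal.aleph 1 = Order.succ Cardinal.aleph0 := Cardinal.succ_aleph0.symm
    exact Cardinal.mk_le_aleph0_iff.1 (Order.lt_succ_iff.1 (this.trans_eq h2))
  have hunc : Uncountable (Cardinal.aleph 1).ord.ToType := by
    rw [← Cardinal.aleph0_lt_mk_iff, Cardinal.mk_ord_toType]
    exact Cardinal.aleph0_lt_aleph_one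
  obtain ⟨h, bs, sc, sc1, sc2, lim, hsc⟩ := exists_blocks hc
  obtain ⟨F, hF⟩ := exists_F hc A h bs
  have hG : ∀ y, Good F h y (F y) := fun y => (hF y).1
  let _ : TopologicalSpace (Cardinal.aleph 1).ord.ToType := topo F
  have hT : ∀ U : Set (Cardinal.aleph 1).ord.ToType, IsOpen U ↔ ∀ x ∈ U, ∃ m, F x m ⊆ U :=
    fun U => topo_isOpen hG
  have i1 : T2Space (Cardinal.aleph 1).ord.ToType := t2 hG hT
  have i2 : WeaklyLocallyCompactSpace (Cardinal.aleph 1).ord.ToType := wlc hG hT
  obtain ⟨r1, r2, r3, r4⟩ := compactum (Ω := (Cardinal.aleph 1).ord.ToType)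
    (fun S hS => exists_ub hc hS) h F (fun x _ _ hmn => (hG x).anti hmn)
    (fun x m => (hG x).mem_self m) hT (fun C hC => compact_bdd hG hT hC)
    (fun C hC n hn => compact_of_bounded hc hA1 hA2 sc1 sc2 lim hsc hF hT hC hn)
    (fun x => isOpen_Iio' hG hT x)
    (by
      intro x
      obtain ⟨a, ⟨-, -, ha⟩, hxa⟩ := (club_limits hc (S := univ)
        (fun x => by obtain ⟨y, hy⟩ := exists_gt' hc x; exact ⟨y, mem_univ _, hy⟩) x).1 x
      refine ⟨a, hxa, (lim a (fun y hy => ?_)).1⟩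
      obtain ⟨t, -, h1, h2⟩ := ha y hy
      exact ⟨t, h1, h2⟩)
    (fun S C hC hSC hS hn => tail_of_unbounded hc hA1 hA2 sc1 sc2 lim hsc hF hT hC hSC hS hn)
  exact ⟨_, _, r1, r2, r3, r4⟩

end Pool.Agent.Lib.MP_4fd693_gt.Dia
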