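import Pool.Agent.Lib.MP_4fd693_gt.DiaSpace
import Pool.Agent.Lib.MP_4fd693_gt.AlphaDefs

open Set Topology Filter

namespace Pool.Agent.Lib.MP_4fd693_gt.Dia

section order
variable {Ω : Type} [LinearOrder Ω] [WellFoundedLT Ω] [Uncountable Ω]
  (hc : ∀ x : Ω, (Iio x).Countable)
include hc

theorem exists_ub {S : Set Ω} (hS : S.Countable) : ∃ b, ∀ s ∈ S, s < b := by
  by_contra hcon
  push Not at hcon
  have h1 : (⋃ s ∈ S, Iic s).Countable := by
    refine hS.biUnion fun s _ => ?_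
    rw [← Set.Iio_union_right]
    exact (hc s).union (countable_singleton s)
  have h2 : (⋃ s ∈ S, Iic s) = univ := by
    ext b
    simp only [mem_iUnion, mem_Iic, mem_univ, iff_true]
    obtain ⟨s, hs, hb⟩ := hcon b
    exact ⟨s, hs, hb⟩
  rw [h2] at h1
  exact not_countable_univ_iff.2 ‹_› h1

theorem exists_gt' (x : Ω) : ∃ y, x < y := by
  obtain ⟨b, hb⟩ := exists_ub hc (countable_singleton x)
  exact ⟨b, hb x rfl⟩

/-- limits of an unbounded set, above a bound, form a club -/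
theorem club_limits {S : Set Ω} (hS : ∀ x, ∃ t ∈ S, x < t) (b : Ω) :
    IsClub {a : Ω | b ≤ a ∧ (∃ y, y < a) ∧ ∀ y, y < a → ∃ t ∈ S, y < t ∧ t < a} := by
  constructor
  · intro x
    choose g hg1 hg2 using hS
    let u : ℕ → Ω := fun n => Nat.rec (g (max x b)) (fun _ y => g y) n
    have hu : ∀ n, u (n + 1) = g (u n) := fun n => rfl
    have hu0 : max x b < u 0 := hg2 _
    have humono : StrictMono u := strictMono_nat_of_lt_succ fun n => by rw [hu]; exact hg2 _
    have huS : ∀ n, u n ∈ S := by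
      intro n
      cases n with
      | zero => exact hg1 _
      | succ n => rw [hu]; exact hg1 _
    obtain ⟨B, hB⟩ := exists_ub hc (countable_range u)
    -- least upper bound
    have hne : {c : Ω | ∀ n, u n < c}.Nonempty := ⟨B, fun n => hB _ (mem_range_self n)⟩
    let a := (wellFounded_lt (α := Ω)).min _ hne
    have ha : ∀ n, u n < a := (wellFounded_lt (α := Ω)).min_mem _ hne
    have hamin : ∀ y, y < a → ∃ n, y ≤ u n := by
      intro y hy
      by_contra hcon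
      push Not at hcon
      exact (wellFounded_lt (α := Ω)).not_lt_min _ (show y ∈ {c : Ω | ∀ n, u n < c} from hcon) hy
    refine ⟨a, ⟨?_, ⟨u 0, ha 0⟩, ?_⟩, ?_⟩
    · exact ((le_max_right x b).trans hu0.le).trans (ha 0).le
    · intro y hy
      obtain ⟨n, hn⟩ := hamin y hy
      exact ⟨u (n + 1), huS (n + 1), lt_of_le_of_lt hn (humono (Nat.lt_succ_self n)), ha (n + 1)⟩
    · exact lt_trans (lt_of_le_of_lt (le_max_left _ _) hu0) (ha 0)
  · intro a ha h1
    refine ⟨?_, ha, ?_⟩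
    · obtain ⟨y, hy⟩ := ha
      obtain ⟨c, hcc, -, hca⟩ := h1 y hy
      exact hcc.1.trans hca.le
    · intro y hy
      obtain ⟨c, hcc, hyc, hca⟩ := h1 y hy
      obtain ⟨t, ht, hyt, htc⟩ := hcc.2.2 y hyc
      exact ⟨t, ht, hyt, htc.trans hca⟩

/-- block structure -/
theorem exists_blocks : ∃ (h : Ω → ℕ) (bs : Ω → Ω) (sc : Ω → Ω),
    (∀ x, x < sc x) ∧ (∀ x y, y < sc x → y ≤ x) ∧
    (∀ x, (∀ y, y < x → ∃ t, y < t ∧ t < x) → h x = 0 ∧ bs x = x) ∧
    (∀ x, h (sc x) = h x + 1 ∧ bs (sc x) = bs x) := by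
  classical
  let _ : SuccOrder Ω := SuccOrder.ofLinearWellFoundedLT Ω
  have : NoMaxOrder Ω := ⟨fun x => exists_gt' hc x⟩
  let p : Ω → ℕ × Ω := fun x => SuccOrder.prelimitRecOn (motive := fun _ => ℕ × Ω) x
    (fun _ _ ih => (ih.1 + 1, ih.2)) (fun y _ _ => (0, y))
  refine ⟨fun x => (p x).1, fun x => (p x).2, Order.succ, fun x => Order.lt_succ x,
    fun x y hy => Order.lt_succ_iff.1 hy, ?_, ?_⟩
  · intro x hx
    have h1 : Order.IsSuccPrelimit x := by
      intro y hy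
      obtain ⟨t, hyt, htx⟩ := hx y hy.lt
      exact hy.2 hyt htx
    have : p x = (0, x) := by
      simp only [p]
      rw [SuccOrder.prelimitRecOn_of_isSuccPrelimit _ _ h1]
    show (p x).1 = 0 ∧ (p x).2 = x
    rw [this]
    exact ⟨rfl, rfl⟩
  · intro x
    have : p (Order.succ x) = ((p x).1 + 1, (p x).2) := by
      simp only [p]
      rw [SuccOrder.prelimitRecOn_succ]
    show (p (Order.succ x)).1 = (p x).1 + 1 ∧ (p (Order.succ x)).2 = (p x).2
    rw [this]
    exact ⟨rfl, rfl⟩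

end order

set_option linter.unusedSectionVars false

section main
variable {Ω : Type} [LinearOrder Ω] [WellFoundedLT Ω] [Uncountable Ω]
  (hc : ∀ x : Ω, (Iio x).Countable)
  {A : Ω → Set Ω} (hA1 : ∀ a, A a ⊆ Iio a)
  (hA2 : ∀ S : Set Ω, ∀ C, IsClub C → ∃ a ∈ C, S ∩ Iio a = A a)
  {h : Ω → ℕ} {bs sc : Ω → Ω} (sc1 : ∀ x, x < sc x) (sc2 : ∀ x y, y < sc x → y ≤ x)
  (lim : ∀ x, (∀ y, y < x → ∃ t, y < t ∧ t < x) → h x = 0 ∧ bs x = x)
  (hsc : ∀ x, h (sc x) = h x + 1 ∧ bs (sc x) = bs x)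
  {F : Ω → ℕ → Set Ω} (hF : ∀ x, Rel A h bs x F (F x))

/-- iterated successor -/
def it (sc : Ω → Ω) (β : Ω) (m : ℕ) : Ω := sc^[m] β

omit [LinearOrder Ω] [WellFoundedLT Ω] [Uncountable Ω] in
theorem it_succ (β : Ω) (m : ℕ) : it sc β (m + 1) = sc (it sc β m) :=
  Function.iterate_succ_apply' sc m β

include sc1 in
theorem le_it (β : Ω) (m : ℕ) : β ≤ it sc β m := by
  induction m with
  | zero => exact le_rfl
  | succ m ih => rw [it_succ]; exact ih.trans (sc1 _).le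

include hsc in
theorem h_it {β : Ω} (hβ : h β = 0 ∧ bs β = β) (m : ℕ) : h (it sc β m) = m ∧ bs (it sc β m) = β := by
  induction m with
  | zero => exact hβ
  | succ m ih => rw [it_succ, (hsc _).1, (hsc _).2, ih.1, ih.2]; exact ⟨rfl, rfl⟩

include hA1 sc1 sc2 hsc hF

/-- a task that is large at its own stage stays large forever -/
theorem never_covered {β : Ω} (hβ : h β = 0 ∧ bs β = β) {n : ℕ} (hn : ∀ t ∈ A β, h t ≤ n)
    (hL : Large F β (A β)) :
    (∀ s : Finset Ω, ∃ t ∈ A β, ∀ y ∈ s, t ∉ F y 0) := by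
  have hG : ∀ y, Good F h y (F y) := fun y => (hF y).1
  have c1 : ∀ m, Large F (it sc β m) (A β) := by
    intro m
    induction m with
    | zero => exact hL
    | succ m ih =>
      intro s hs
      have hb := (h_it hsc hβ m).2
      obtain ⟨t, ht, htx, hts, htv⟩ := (hF (it sc β m)).2.2 (by rw [hb]; exact ih)
        (s.filter (fun y => y < it sc β m)) (by intro y hy; exact (Finset.mem_filter.1 hy).2)
      rw [hb] at ht
      refine ⟨t, ht, ?_, ?_⟩
      · rw [it_succ]; exact htx.trans (sc1 _)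
      · intro y hy
        have h1 := hs y hy
        rw [it_succ] at h1
        rcases (sc2 _ _ h1).lt_or_eq with h2 | h2
        · exact hts y (Finset.mem_filter.2 ⟨hy, h2⟩)
        · rw [h2]; exact htv
  have c2 : ∀ m, n ≤ m → ∀ k, (F (it sc β m) k ∩ A β).Nonempty := by
    intro m hm k
    refine (hF (it sc β m)).2.1 β (le_it sc1 β m) ?_ (c1 m) k
    intro t ht
    rw [(h_it hsc hβ m).1]
    exact (hn t ht).trans hm
  intro s
  by_contra hcon
  push Not at hcon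
  let m := max n (s.sup h + 1)
  have hm : ∀ y ∈ s, ∃ k, Disjoint (F (it sc β m) k) (F y 0) := by
    intro y hy
    apply g_closed hG
    intro h1
    have h2 := (g_below hG h1).2
    rw [(h_it hsc hβ m).1] at h2
    have h3 : h y ≤ s.sup h := Finset.le_sup hy
    have h4 : s.sup h + 1 ≤ m := le_max_right _ _
    omega
  have : ∀ y : Ω, ∃ k, y ∈ s → Disjoint (F (it sc β m) k) (F y 0) := by
    intro y
    by_cases hy : y ∈ s
    · obtain ⟨k, hk⟩ := hm y hy; exact ⟨k, fun _ => hk⟩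
    · exact ⟨0, fun h => absurd h hy⟩
  choose g hg using this
  obtain ⟨t, ht, htA⟩ := c2 m (le_max_left _ _) (s.sup g)
  obtain ⟨y, hy, hty⟩ := hcon t htA
  exact disjoint_left.1 (hg y hy) ((hG _).anti (Finset.le_sup hy) ht) hty

/-- every later point of large enough height is a limit of a large task -/
theorem task_limit {β : Ω} (hβ : h β = 0 ∧ bs β = β) {n : ℕ} (hn : ∀ t ∈ A β, h t ≤ n)
    (hL : Large F β (A β)) {x : Ω} (hx : β ≤ x) (hxn : n ≤ h x) (k : ℕ) :
    (F x k ∩ A β).Nonempty := by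
  refine (hF x).2.1 β hx (fun t ht => (hn t ht).trans hxn) ?_ k
  intro s _
  obtain ⟨t, ht, hts⟩ := never_covered hA1 sc1 sc2 hsc hF hβ hn hL s
  exact ⟨t, ht, lt_of_lt_of_le (hA1 β ht) hx, hts⟩

include hc hA2 lim

/-- an unbounded set of bounded height has a later task inside -/
theorem exists_task_unbounded {S : Set Ω} (hS : ∀ x, ∃ t ∈ S, x < t) {n : ℕ}
    (hn : ∀ t ∈ S, h t ≤ n) : ∃ β, h β = 0 ∧ bs β = β ∧ A β ⊆ S ∧ (∀ t ∈ A β, h t ≤ n) ∧
      Large F β (A β) := by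
  have hG : ∀ y, Good F h y (F y) := fun y => (hF y).1
  have hne : Nonempty Ω := by
    by_contra hcon
    rw [not_nonempty_iff] at hcon
    exact not_countable (α := Ω) inferInstance
  obtain ⟨b0⟩ := hne
  obtain ⟨β, ⟨-, hβ1, hβ2⟩, hβ⟩ := hA2 S _ (club_limits hc hS b0)
  have hl := lim β (fun y hy => by
    obtain ⟨t, -, h1, h2⟩ := hβ2 y hy
    exact ⟨t, h1, h2⟩)
  refine ⟨β, hl.1, hl.2, ?_, ?_, ?_⟩
  · rw [← hβ]; exact inter_subset_left
  · intro t ht
    rw [← hβ] at ht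
    exact hn t ht.1
  · intro s hs
    obtain ⟨y0, hy0⟩ := hβ1
    have h1 : ∃ y, y < β ∧ ∀ z ∈ s, z ≤ y := by
      clear hG
      induction s using Finset.induction_on with
      | empty => exact ⟨y0, hy0, by simp⟩
      | insert a s _ ih =>
        obtain ⟨y, hy, hys⟩ := ih (fun z hz => hs z (Finset.mem_insert_of_mem hz))
        refine ⟨max y a, max_lt hy (hs a (Finset.mem_insert_self _ _)), ?_⟩
        intro z hz
        rcases Finset.mem_insert.1 hz with rfl | hz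
        · exact le_max_right _ _
        · exact (hys z hz).trans (le_max_left _ _)
    obtain ⟨y, hy, hys⟩ := h1
    obtain ⟨t, ht, hyt, htβ⟩ := hβ2 y hy
    refine ⟨t, ?_, htβ, fun z hz hzt => ?_⟩
    · rw [← hβ]; exact ⟨ht, htβ⟩
    · exact absurd (g_below hG hzt).1 (not_le.2 (lt_of_le_of_lt (hys z hz) hyt))

variable [TopologicalSpace Ω] (hT : ∀ U : Set Ω, IsOpen U ↔ ∀ x ∈ U, ∃ m, F x m ⊆ U)
include hT

/-- closed sets of bounded height are compact -/
theorem compact_of_bounded {C : Set Ω} (hC : IsClosed C) {n : ℕ} (hn : ∀ t ∈ C, h t ≤ n) :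
    IsCompact C := by
  have hG : ∀ y, Good F h y (F y) := fun y => (hF y).1
  by_contra hcomp
  have hcov : ∀ s : Finset Ω, ∃ t ∈ C, ∀ y ∈ s, t ∉ F y 0 := by
    intro s
    by_contra hcon
    push Not at hcon
    exact hcomp (cover_compact hG hT hC hcon)
  obtain ⟨β, hβ0, hβ1, hβC, hβn, hL⟩ : ∃ β, h β = 0 ∧ bs β = β ∧ A β ⊆ C ∧ (∀ t ∈ A β, h t ≤ n) ∧
      Large F β (A β) := by
    by_cases hub : ∀ x, ∃ t ∈ C, x < t
    · exact exists_task_unbounded hc hA1 hA2 sc1 sc2 lim hsc hF hub hn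
    · push Not at hub
      obtain ⟨b0, hb0⟩ := hub
      obtain ⟨b, hb⟩ := exists_gt' hc b0
      obtain ⟨β, ⟨hbβ, -, hβ2⟩, hβ⟩ := hA2 C _ (club_limits hc (S := univ)
        (fun x => by obtain ⟨y, hy⟩ := exists_gt' hc x; exact ⟨y, mem_univ _, hy⟩) b)
      have hl := lim β (fun y hy => by
        obtain ⟨t, -, h1, h2⟩ := hβ2 y hy
        exact ⟨t, h1, h2⟩)
      have hCβ : C ∩ Iio β = C := by
        ext t
        constructor
        · exact fun ht => ht.1
        · exact fun ht => ⟨ht, lt_of_le_of_lt (hb0 t ht) (lt_of_lt_of_le hb hbβ)⟩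
      rw [hCβ] at hβ
      refine ⟨β, hl.1, hl.2, hβ ▸ Subset.rfl, hβ ▸ hn, ?_⟩
      intro s _
      obtain ⟨t, ht, hts⟩ := hcov s
      exact ⟨t, hβ ▸ ht, lt_of_le_of_lt (hb0 t ht) (lt_of_lt_of_le hb hbβ), hts⟩
  have hx : it sc β (n + 1) ∈ C := by
    refine closed_of_meets hG hT hC fun k => ?_
    obtain ⟨t, ht, htA⟩ := task_limit hA1 sc1 sc2 hsc hF ⟨hβ0, hβ1⟩ hβn hL
      (le_it sc1 β (n + 1)) (by rw [(h_it hsc ⟨hβ0, hβ1⟩ (n+1)).1]; omega) k
    exact ⟨t, ht, hβC htA⟩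
  have := hn _ hx
  rw [(h_it hsc ⟨hβ0, hβ1⟩ (n+1)).1] at this
  omega

/-- the closure of an unbounded set of points of height `0` contains a tail of these points -/
theorem tail_of_unbounded {S C : Set Ω} (hC : IsClosed C) (hSC : S ⊆ C)
    (hS : ∀ x, ∃ t ∈ S, x < t) (hn : ∀ t ∈ S, h t = 0) :
    ∃ β, ∀ x, β ≤ x → x ∈ C := by
  have hG : ∀ y, Good F h y (F y) := fun y => (hF y).1
  obtain ⟨β, hβ0, hβ1, hβC, hβn, hL⟩ :=
    exists_task_unbounded hc hA1 hA2 sc1 sc2 lim hsc hF hS (n := 0) (fun t ht => (hn t ht).le)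
  refine ⟨β, fun x hx => closed_of_meets hG hT hC fun k => ?_⟩
  obtain ⟨t, ht, htA⟩ := task_limit hA1 sc1 sc2 hsc hF ⟨hβ0, hβ1⟩ hβn hL hx (Nat.zero_le _) k
  exact ⟨t, ht, hSC (hβC htA)⟩

end main

end Pool.Agent.Lib.MP_4fd693_gt.Dia
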