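import Pool.Agent.Lib.MP_4fd693_gt.DiaStep
import Pool.Agent.Lib.MP_4fd693_gt.Defs

open Set Topology Filter

namespace Pool.Agent.Lib.MP_4fd693_gt.Dia

variable {Ω : Type} [LinearOrder Ω]

/-- the defining property of the neighbourhoods -/
def Rel (A : Ω → Set Ω) (h : Ω → ℕ) (bs : Ω → Ω) (x : Ω) (F : Ω → ℕ → Set Ω)
    (v : ℕ → Set Ω) : Prop :=
  Good F h x v ∧
    (∀ β, β ≤ x → (∀ t ∈ A β, h t ≤ h x) → Large F x (A β) → ∀ m, (v m ∩ A β).Nonempty) ∧
    (Large F x (A (bs x)) → ∀ s : Finset Ω, (∀ y ∈ s, y < x) →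
        ∃ t ∈ A (bs x), t < x ∧ (∀ y ∈ s, t ∉ F y 0) ∧ t ∉ v 0)

theorem Large.congr {F F' : Ω → ℕ → Set Ω} {x : Ω} {T : Set Ω} (hF : ∀ y, y < x → F y = F' y)
    (h : Large F x T) : Large F' x T := by
  intro s hs
  obtain ⟨t, ht, htx, hts⟩ := h s hs
  exact ⟨t, ht, htx, fun y hy => by rw [← hF y (hs y hy)]; exact hts y hy⟩

theorem exists_F [WellFoundedLT Ω] (hc : ∀ x : Ω, (Iio x).Countable) (A : Ω → Set Ω) (h : Ω → ℕ)
    (bs : Ω → Ω) : ∃ F : Ω → ℕ → Set Ω, ∀ x, Rel A h bs x F (F x) := by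
  refine exists_rec (fun x F v => Rel A h bs x F v) ?_ ?_
  · rintro x F F' v hF ⟨⟨W, h1, h2, h3⟩, h4, h5⟩
    have hF' : ∀ y, y < x → F' y = F y := fun y hy => (hF y hy).symm
    refine ⟨⟨W, ?_, h2, ?_⟩, ?_, ?_⟩
    · intro k
      rcases h1 k with h1 | ⟨z, hz, j, hj, h1⟩
      · exact Or.inl h1
      · exact Or.inr ⟨z, hz, j, hj, by rw [h1, hF z hz]⟩
    · intro y hy
      obtain ⟨K, hK⟩ := h3 y hy
      exact ⟨K, fun k hk => by rw [← hF y hy]; exact hK k hk⟩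
    · intro β hβ hβ' hL
      exact h4 β hβ hβ' (hL.congr hF')
    · intro hL s hs
      obtain ⟨t, ht, htx, hts, htv⟩ := h5 (hL.congr hF') s hs
      exact ⟨t, ht, htx, fun y hy => by rw [← hF y (hs y hy)]; exact hts y hy, htv⟩
  · intro x F hF
    have hcx : (Iic x).Countable := by
      rw [← Set.Iio_union_right]
      exact (hc x).union (countable_singleton x)
    obtain ⟨v, hv1, hv2, hv3⟩ := step (F := F) (h := h) x (hc x) (fun y hy => (hF y hy).1)
      {T | ∃ β, β ≤ x ∧ T = A β ∧ (∀ t ∈ A β, h t ≤ h x) ∧ Large F x (A β)}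
      ((hcx.image A).mono (by rintro T ⟨β, hβ, rfl, -⟩; exact ⟨β, hβ, rfl⟩))
      (by rintro T ⟨β, hβ, rfl, h1, -⟩; exact h1)
      (by rintro T ⟨β, hβ, rfl, -, h1⟩; exact h1) (A (bs x))
    exact ⟨v, hv1, fun β hβ h1 h2 => hv2 _ ⟨β, hβ, rfl, h1, h2⟩, hv3⟩

/-- the topology generated by a neighbourhood assignment -/
def topo (F : Ω → ℕ → Set Ω) : TopologicalSpace Ω where
  IsOpen U := ∀ x ∈ U, ∃ m, ∀ k ≥ m, F x k ⊆ U
  isOpen_univ := fun _ _ => ⟨0, fun _ _ => subset_univ _⟩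
  isOpen_inter := by
    rintro U V hU hV x ⟨hxU, hxV⟩
    obtain ⟨m, hm⟩ := hU x hxU
    obtain ⟨n, hn⟩ := hV x hxV
    exact ⟨max m n, fun k hk => subset_inter (hm k (le_trans (le_max_left _ _) hk))
      (hn k (le_trans (le_max_right _ _) hk))⟩
  isOpen_sUnion := by
    rintro S hS x ⟨U, hU, hx⟩
    obtain ⟨m, hm⟩ := hS U hU x hx
    exact ⟨m, fun k hk => (hm k hk).trans (subset_sUnion_of_mem hU)⟩

section space
variable {F : Ω → ℕ → Set Ω} {h : Ω → ℕ} (hG : ∀ y, Good F h y (F y))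

theorem topo_isOpen (hG : ∀ y, Good F h y (F y)) {U : Set Ω} :
    IsOpen[topo F] U ↔ ∀ x ∈ U, ∃ m, F x m ⊆ U := by
  constructor
  · intro hU x hx
    obtain ⟨m, hm⟩ := hU x hx
    exact ⟨m, hm m le_rfl⟩
  · intro hU x hx
    obtain ⟨m, hm⟩ := hU x hx
    exact ⟨m, fun k hk => ((hG x).anti hk).trans hm⟩

variable [WellFoundedLT Ω]
include hG

theorem g_below {x : Ω} {m : ℕ} {w : Ω} (hw : w ∈ F x m) : w ≤ x ∧ h w ≤ h x :=
  good_below (D := univ) (fun _ _ _ _ => mem_univ _) (fun y _ => hG y) (mem_univ x) hw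

theorem g_open {x : Ω} {m : ℕ} {w : Ω} (hw : w ∈ F x m) : ∃ m', F w m' ⊆ F x m :=
  good_open (D := univ) (fun _ _ _ _ => mem_univ _) (fun y _ => hG y) (mem_univ x) hw

theorem g_closed {x : Ω} {m : ℕ} {w : Ω} (hw : w ∉ F x m) :
    ∃ m', Disjoint (F w m') (F x m) :=
  good_closed (D := univ) (fun _ _ _ _ => mem_univ _) (fun y _ => hG y) (mem_univ x)
    (mem_univ w) hw

variable [TopologicalSpace Ω] (hT : ∀ U : Set Ω, IsOpen U ↔ ∀ x ∈ U, ∃ m, F x m ⊆ U)
include hT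

theorem isOpen_F (x : Ω) (m : ℕ) : IsOpen (F x m) := by
  rw [hT]
  intro w hw
  exact g_open hG hw

theorem mem_nhds_iff' {x : Ω} {U : Set Ω} : U ∈ 𝓝 x ↔ ∃ m, F x m ⊆ U := by
  rw [mem_nhds_iff]
  constructor
  · rintro ⟨V, hVU, hV, hxV⟩
    obtain ⟨m, hm⟩ := (hT V).1 hV x hxV
    exact ⟨m, hm.trans hVU⟩
  · rintro ⟨m, hm⟩
    exact ⟨F x m, hm, isOpen_F hG hT x m, (hG x).mem_self m⟩

theorem t2 : T2Space Ω := by
  have key : ∀ x y : Ω, y < x → ∃ u v : Set Ω,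
      IsOpen u ∧ IsOpen v ∧ x ∈ u ∧ y ∈ v ∧ Disjoint u v := by
    intro x y hyx
    have hx : x ∉ F y 0 := fun hh => absurd (g_below hG hh).1 (not_le.2 hyx)
    obtain ⟨m, hm⟩ := g_closed hG hx
    exact ⟨F x m, F y 0, isOpen_F hG hT x m, isOpen_F hG hT y 0, (hG x).mem_self m,
      (hG y).mem_self 0, hm⟩
  refine ⟨fun x y hxy => ?_⟩
  rcases lt_or_gt_of_ne hxy with h1 | h1
  · obtain ⟨u, v, hu, hv, hxu, hyv, huv⟩ := key y x h1
    exact ⟨v, u, hv, hu, hyv, hxu, huv.symm⟩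
  · exact key x y h1

theorem isCompact_F (x : Ω) (m : ℕ) : IsCompact (F x m) := by
  induction x using WellFoundedLT.induction generalizing m with
  | _ x ih =>
    rw [isCompact_iff_ultrafilter_le_nhds]
    intro f hf
    by_cases h1 : ∀ K, F x K ∈ f
    · refine ⟨x, (hG x).mem_self m, ?_⟩
      intro U hU
      obtain ⟨K, hK⟩ := (mem_nhds_iff' hG hT).1 hU
      exact mem_of_superset (h1 K) hK
    · push Not at h1
      obtain ⟨K, hK⟩ := h1
      obtain ⟨W, w1, w2, w3⟩ := hG x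
      have hf' : F x m ∈ f := hf (mem_principal_self _)
      have h2 : (⋃ k ∈ (Finset.range K : Set ℕ), (if m ≤ k then W k else ∅)) ∈ f := by
        have h3 : (F x K)ᶜ ∈ f := Ultrafilter.compl_mem_iff_notMem.2 hK
        filter_upwards [hf', h3] with t ht ht'
        rw [w2] at ht ht'
        rcases ht with ht | ht
        · exact absurd (Or.inl ht) ht'
        · simp only [mem_iUnion] at ht
          obtain ⟨k, hk, ht⟩ := ht
          have hkK : k < K := by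
            by_contra hkK
            apply ht'
            right
            simp only [mem_iUnion]
            exact ⟨k, not_lt.1 hkK, ht⟩
          simp only [mem_iUnion]
          refine ⟨k, by simpa using hkK, ?_⟩
          rw [if_pos hk]; exact ht
      rw [Ultrafilter.finite_biUnion_mem_iff (Finset.finite_toSet _)] at h2
      obtain ⟨k, -, hk⟩ := h2
      by_cases hmk : m ≤ k
      · rw [if_pos hmk] at hk
        rcases w1 k with h4 | ⟨z, hz, j, hj, h4⟩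
        · rw [h4] at hk; exact absurd hk (by simp)
        · rw [h4] at hk
          obtain ⟨w, hw, hfw⟩ := isCompact_iff_ultrafilter_le_nhds.1 (ih z hz j) f
            (le_principal_iff.2 hk)
          refine ⟨w, ?_, hfw⟩
          rw [w2]; right
          simp only [mem_iUnion]
          exact ⟨k, hmk, by rw [h4]; exact hw⟩
      · rw [if_neg hmk] at hk; exact absurd hk (by simp)

theorem wlc : WeaklyLocallyCompactSpace Ω :=
  ⟨fun x => ⟨F x 0, isCompact_F hG hT x 0, (isOpen_F hG hT x 0).mem_nhds ((hG x).mem_self 0)⟩⟩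

/-- a compact set is covered by finitely many basic sets -/
theorem compact_cover {C : Set Ω} (hC : IsCompact C) :
    ∃ s : Finset Ω, ∀ t ∈ C, ∃ y ∈ s, t ∈ F y 0 := by
  obtain ⟨s, hs⟩ := hC.elim_nhds_subcover (fun x => F x 0)
    (fun x _ => (isOpen_F hG hT x 0).mem_nhds ((hG x).mem_self 0))
  refine ⟨s, fun t ht => ?_⟩
  have := hs.2 ht
  simp only [mem_iUnion] at this
  obtain ⟨y, hy, hty⟩ := this
  exact ⟨y, hy, hty⟩

theorem cover_compact {C : Set Ω} (hC : IsClosed C) {s : Finset Ω}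
    (hs : ∀ t ∈ C, ∃ y ∈ s, t ∈ F y 0) : IsCompact C := by
  have h1 : IsCompact (⋃ y ∈ s, F y 0) :=
    s.isCompact_biUnion fun y _ => isCompact_F hG hT y 0
  refine h1.of_isClosed_subset hC fun t ht => ?_
  obtain ⟨y, hy, hty⟩ := hs t ht
  simp only [mem_iUnion]
  exact ⟨y, hy, hty⟩

theorem compact_bdd {C : Set Ω} (hC : IsCompact C) : ∃ n, ∀ t ∈ C, h t ≤ n := by
  obtain ⟨s, hs⟩ := compact_cover hG hT hC
  refine ⟨s.sup h, fun t ht => ?_⟩
  obtain ⟨y, hy, hty⟩ := hs t ht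
  exact (g_below hG hty).2.trans (Finset.le_sup hy)

theorem isOpen_Iio' (x : Ω) : IsOpen {t : Ω | t < x} := by
  rw [hT]
  intro w hw
  exact ⟨0, fun t ht => (g_below hG ht).1.trans_lt hw⟩

theorem closed_of_meets {C : Set Ω} (hC : IsClosed C) {x : Ω}
    (hx : ∀ k, (F x k ∩ C).Nonempty) : x ∈ C := by
  by_contra hxC
  obtain ⟨m, hm⟩ := (hT _).1 hC.isOpen_compl x hxC
  obtain ⟨t, ht, htC⟩ := hx m
  exact hm ht htC

end space

end Pool.Agent.Lib.MP_4fd693_gt.Dia
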