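import Mathlib

open Set

namespace Pool.Agent.Lib.MP_4fd693_gt.Dia

variable {Ω : Type} [LinearOrder Ω]

/-- `T` is not covered, below `x`, by finitely many of the sets `F y 0` with `y < x` -/
def Large (F : Ω → ℕ → Set Ω) (x : Ω) (T : Set Ω) : Prop :=
  ∀ s : Finset Ω, (∀ y ∈ s, y < x) → ∃ t ∈ T, t < x ∧ ∀ y ∈ s, t ∉ F y 0

/-- `v` is a good neighbourhood sequence for `x` over `F` below `x` -/
def Good (F : Ω → ℕ → Set Ω) (h : Ω → ℕ) (x : Ω) (v : ℕ → Set Ω) : Prop :=
  ∃ W : ℕ → Set Ω, (∀ k, W k = ∅ ∨ ∃ z, z < x ∧ ∃ j, h z ≤ h x ∧ W k = F z j) ∧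
    (∀ m, v m = {x} ∪ ⋃ k ≥ m, W k) ∧
    (∀ y, y < x → ∃ K, ∀ k ≥ K, Disjoint (F y 0) (W k))

section good
variable {F : Ω → ℕ → Set Ω} {h : Ω → ℕ}

theorem Good.mem_self {x : Ω} {v : ℕ → Set Ω} (hg : Good F h x v) (m : ℕ) : x ∈ v m := by
  obtain ⟨W, -, h2, -⟩ := hg
  rw [h2]; left; rfl

theorem Good.anti {x : Ω} {v : ℕ → Set Ω} (hg : Good F h x v) {m m' : ℕ} (hm : m ≤ m') :
    v m' ⊆ v m := by
  obtain ⟨W, -, h2, -⟩ := hg
  rw [h2, h2]
  rintro t (ht | ht)
  · left; exact ht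
  · right
    simp only [mem_iUnion] at ht ⊢
    obtain ⟨k, hk, ht⟩ := ht
    exact ⟨k, le_trans hm hk, ht⟩

variable [WellFoundedLT Ω] {D : Set Ω} (hD : ∀ y ∈ D, ∀ z, z < y → z ∈ D)
  (hG : ∀ y ∈ D, Good F h y (F y))
include hD hG

theorem good_below {x : Ω} (hx : x ∈ D) {m : ℕ} {w : Ω} (hw : w ∈ F x m) :
    w ≤ x ∧ h w ≤ h x := by
  induction x using WellFoundedLT.induction generalizing m w with
  | _ x ih =>
    obtain ⟨W, h1, h2, h3⟩ := hG x hx
    rw [h2] at hw
    rcases hw with hw | hw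
    · rw [mem_singleton_iff.1 hw]; exact ⟨le_rfl, le_rfl⟩
    · simp only [mem_iUnion] at hw
      obtain ⟨k, hk, hw⟩ := hw
      rcases h1 k with h4 | ⟨z, hz, j, hj, h4⟩
      · rw [h4] at hw; exact absurd hw (notMem_empty _)
      · rw [h4] at hw
        obtain ⟨a, b⟩ := ih z hz (hD x hx z hz) hw
        exact ⟨a.trans hz.le, b.trans hj⟩

theorem good_open {x : Ω} (hx : x ∈ D) {m : ℕ} {w : Ω} (hw : w ∈ F x m) :
    ∃ m', F w m' ⊆ F x m := by
  induction x using WellFoundedLT.induction generalizing m w with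
  | _ x ih =>
    obtain ⟨W, h1, h2, h3⟩ := hG x hx
    have hw' := hw
    rw [h2] at hw
    rcases hw with hw | hw
    · rw [mem_singleton_iff.1 hw]; exact ⟨m, Subset.rfl⟩
    · simp only [mem_iUnion] at hw
      obtain ⟨k, hk, hw⟩ := hw
      rcases h1 k with h4 | ⟨z, hz, j, hj, h4⟩
      · rw [h4] at hw; exact absurd hw (notMem_empty _)
      · rw [h4] at hw
        obtain ⟨m', hm'⟩ := ih z hz (hD x hx z hz) hw
        refine ⟨m', hm'.trans ?_⟩
        rw [h2, ← h4]
        intro t ht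
        right
        simp only [mem_iUnion]
        exact ⟨k, hk, ht⟩

theorem good_closed {x : Ω} (hx : x ∈ D) {m : ℕ} {w : Ω} (hwD : w ∈ D) (hw : w ∉ F x m) :
    ∃ m', Disjoint (F w m') (F x m) := by
  induction x using WellFoundedLT.induction generalizing m with
  | _ x ih =>
    have hgx := hG x hx
    rcases lt_trichotomy w x with hwx | hwx | hwx
    · obtain ⟨W, h1, h2, h3⟩ := hgx
      obtain ⟨K, hK⟩ := h3 w hwx
      -- finitely many pieces
      have key : ∀ k, k ≥ m → ∃ m', Disjoint (F w m') (W k) := by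
        intro k hk
        rcases h1 k with h4 | ⟨z, hz, j, hj, h4⟩
        · rw [h4]; exact ⟨0, disjoint_empty _⟩
        · rw [h4]
          refine ih z hz (hD x hx z hz) ?_
          intro hwz
          apply hw
          rw [h2]; right
          simp only [mem_iUnion]
          exact ⟨k, hk, by rw [h4]; exact hwz⟩
      have : ∀ k, ∃ m', k ≥ m → Disjoint (F w m') (W k) := by
        intro k
        by_cases hk : k ≥ m
        · obtain ⟨m', hm'⟩ := key k hk; exact ⟨m', fun _ => hm'⟩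
        · exact ⟨0, fun h => absurd h hk⟩
      choose g hg using this
      refine ⟨(Finset.range K).sup g, ?_⟩
      rw [h2, disjoint_union_right]
      refine ⟨?_, ?_⟩
      · rw [disjoint_singleton_right]
        intro hxw
        exact absurd (good_below hD hG hwD hxw).1 (not_le.2 hwx)
      · rw [disjoint_iUnion₂_right]
        intro k hk
        rcases lt_or_ge k K with hkK | hkK
        · refine (hg k hk).mono_left ?_
          exact (hG w hwD).anti (Finset.le_sup (Finset.mem_range.2 hkK))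
        · exact (hK k hkK).mono_left ((hG w hwD).anti (Nat.zero_le _))
    · exact absurd (hwx ▸ hgx.mem_self m) hw
    · obtain ⟨W, h1, h2, h3⟩ := hG w hwD
      obtain ⟨K, hK⟩ := h3 x hwx
      refine ⟨K, ?_⟩
      rw [h2, disjoint_union_left]
      refine ⟨?_, ?_⟩
      · rw [disjoint_singleton_left]; exact hw
      · rw [disjoint_iUnion₂_left]
        intro k hk
        exact ((hK k hk).mono_left (hgx.anti (Nat.zero_le m))).symm

end good

/-- The step lemma. -/
theorem step [WellFoundedLT Ω] {F : Ω → ℕ → Set Ω} {h : Ω → ℕ} (x : Ω)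
    (hcx : (Iio x).Countable) (hG : ∀ y, y < x → Good F h y (F y))
    (𝒯 : Set (Set Ω)) (hTc : 𝒯.Countable) (hTh : ∀ T ∈ 𝒯, ∀ t ∈ T, h t ≤ h x)
    (hTl : ∀ T ∈ 𝒯, Large F x T) (S : Set Ω) :
    ∃ v : ℕ → Set Ω, Good F h x v ∧ (∀ T ∈ 𝒯, ∀ m, (v m ∩ T).Nonempty) ∧
      (Large F x S → ∀ s : Finset Ω, (∀ y ∈ s, y < x) →
        ∃ t ∈ S, t < x ∧ (∀ y ∈ s, t ∉ F y 0) ∧ t ∉ v 0) := by
  classical
  rcases 𝒯.eq_empty_or_nonempty with hT | hT
  · refine ⟨fun _ => {x}, ⟨fun _ => ∅, fun _ => Or.inl rfl, fun m => by simp,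
      fun y _ => ⟨0, fun k _ => disjoint_empty _⟩⟩, fun T h => by simp [hT] at h, ?_⟩
    intro hS s hs
    obtain ⟨t, ht, htx, hts⟩ := hS s hs
    exact ⟨t, ht, htx, hts, fun h => absurd (mem_singleton_iff.1 h) htx.ne⟩
  -- wlog S large
  have hlow : ∀ y ∈ Iio x, ∀ z, z < y → z ∈ Iio x := fun y hy z hz => lt_trans hz hy
  obtain ⟨T0, hT0⟩ := hT
  obtain ⟨S', hS', hSS'⟩ : ∃ S' : Set Ω, Large F x S' ∧ (Large F x S → S' = S) := by
    by_cases hS : Large F x S
    · exact ⟨S, hS, fun _ => rfl⟩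
    · exact ⟨T0, hTl T0 hT0, fun h => absurd h hS⟩
  obtain ⟨T, hT⟩ := hTc.exists_eq_range ⟨T0, hT0⟩
  have hne : (Iio x).Nonempty := by
    obtain ⟨t, -, ht, -⟩ := hTl T0 hT0 ∅ (by simp)
    exact ⟨t, ht⟩
  obtain ⟨e, he⟩ := hcx.exists_eq_range hne
  have hel : ∀ k, e k < x := fun k => by
    have : e k ∈ Iio x := by rw [he]; exact mem_range_self k
    exact this
  have : Nonempty Ω := ⟨x⟩
  have key : ∀ (k : ℕ) (s : Finset Ω), (∀ y ∈ s, y < x) → ∃ z j z', z ∈ T (Nat.unpair k).1 ∧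
      z < x ∧ (∀ y ∈ s, Disjoint (F z j) (F y 0)) ∧ z' ∈ S' ∧ z' < x ∧
      (∀ y ∈ s, z' ∉ F y 0) ∧ z' ∉ F z 0 := by
    intro k s hs
    have hTk : T (Nat.unpair k).1 ∈ 𝒯 := by rw [hT]; exact mem_range_self _
    obtain ⟨z, hz, hzx, hzs⟩ := hTl _ hTk s hs
    have h1 : ∀ y : Ω, ∃ m, y ∈ s → Disjoint (F z m) (F y 0) := by
      intro y
      by_cases hy : y ∈ s
      · obtain ⟨m, hm⟩ := good_closed (D := Iio x) hlow (fun y hy => hG y hy) (hs y hy)
          (show z ∈ Iio x from hzx) (hzs y hy)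
        exact ⟨m, fun _ => hm⟩
      · exact ⟨0, fun h => absurd h hy⟩
    choose g hg using h1
    obtain ⟨z', hz', hzx', hzs'⟩ := hS' (insert z s) (by
      intro y hy
      rcases Finset.mem_insert.1 hy with rfl | hy
      · exact hzx
      · exact hs y hy)
    refine ⟨z, s.sup g, z', hz, hzx, ?_, hz', hzx', fun y hy => hzs' y (Finset.mem_insert_of_mem hy),
      hzs' z (Finset.mem_insert_self _ _)⟩
    intro y hy
    exact (hg y hy).mono_left ((hG z hzx).anti (Finset.le_sup hy))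
  choose! z j z' hz1 hz2 hz3 hz4 hz5 hz6 hz7 using key
  let σ : ℕ → Finset Ω := fun k => Nat.rec ∅
    (fun k s => insert (e k) (insert (z k s) (insert (z' k s) s))) k
  have hσs : ∀ k, σ (k + 1) = insert (e k) (insert (z k (σ k)) (insert (z' k (σ k)) (σ k))) :=
    fun k => rfl
  have hσ : ∀ k, ∀ y ∈ σ k, y < x := by
    intro k
    induction k with
    | zero => intro y hy; simp [σ] at hy
    | succ k ih =>
      intro y hy
      rw [hσs] at hy
      simp only [Finset.mem_insert] at hy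
      rcases hy with rfl | rfl | rfl | hy
      · exact hel k
      · exact hz2 k _ ih
      · exact hz5 k _ ih
      · exact ih y hy
  have hσm : Monotone σ := by
    refine monotone_nat_of_le_succ fun k => ?_
    rw [hσs]
    intro y hy
    simp only [Finset.mem_insert]
    exact Or.inr (Or.inr (Or.inr hy))
  have me : ∀ k l, k < l → e k ∈ σ l := fun k l hkl => hσm (Nat.succ_le_of_lt hkl) (by
    rw [Nat.succ_eq_add_one, hσs]; simp)
  have mz : ∀ k l, k < l → z k (σ k) ∈ σ l := fun k l hkl => hσm (Nat.succ_le_of_lt hkl) (by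
    rw [Nat.succ_eq_add_one, hσs]; simp)
  have mz' : ∀ k l, k < l → z' k (σ k) ∈ σ l := fun k l hkl => hσm (Nat.succ_le_of_lt hkl) (by
    rw [Nat.succ_eq_add_one, hσs]; simp)
  let W : ℕ → Set Ω := fun k => F (z k (σ k)) (j k (σ k))
  have hW : ∀ l, ∀ y ∈ σ l, Disjoint (F y 0) (W l) := fun l y hy =>
    (hz3 l (σ l) (hσ l) y hy).symm
  refine ⟨fun m => {x} ∪ ⋃ k ≥ m, W k, ⟨W, ?_, fun m => rfl, ?_⟩, ?_, ?_⟩
  · intro k
    right
    refine ⟨z k (σ k), hz2 k _ (hσ k), j k (σ k), ?_, rfl⟩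
    exact hTh _ (by rw [hT]; exact mem_range_self _) _ (hz1 k _ (hσ k))
  · intro y hy
    have : y ∈ range e := by rw [← he]; exact hy
    obtain ⟨k, rfl⟩ := this
    exact ⟨k + 1, fun l hl => hW l _ (me k l hl)⟩
  · intro T1 hT1 m
    rw [hT] at hT1
    obtain ⟨i, rfl⟩ := hT1
    let k := Nat.pair i m
    have hk1 : (Nat.unpair k).1 = i := by simp [k]
    have hk2 : m ≤ k := Nat.right_le_pair i m
    refine ⟨z k (σ k), ?_, ?_⟩
    · right
      simp only [mem_iUnion]
      exact ⟨k, hk2, (hG _ (hz2 k _ (hσ k))).mem_self _⟩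
    · have := hz1 k _ (hσ k)
      rwa [hk1] at this
  · intro hS s hs
    have hSe := hSS' hS
    have hs' : ∃ k, s ⊆ σ k := by
      have h1 : ∀ y : Ω, ∃ k, y ∈ s → y ∈ σ k := by
        intro y
        by_cases hy : y ∈ s
        · have : y ∈ range e := by rw [← he]; exact hs y hy
          obtain ⟨k, rfl⟩ := this
          exact ⟨k + 1, fun _ => me k _ (Nat.lt_succ_self k)⟩
        · exact ⟨0, fun h => absurd h hy⟩
      choose g hg using h1
      exact ⟨s.sup g, fun y hy => hσm (Finset.le_sup hy) (hg y hy)⟩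
    obtain ⟨k, hk⟩ := hs'
    refine ⟨z' k (σ k), hSe ▸ hz4 k _ (hσ k), hz5 k _ (hσ k),
      fun y hy => hz6 k _ (hσ k) y (hk hy), ?_⟩
    rintro (hx' | hx')
    · exact absurd (mem_singleton_iff.1 hx') (hz5 k _ (hσ k)).ne
    · simp only [mem_iUnion] at hx'
      obtain ⟨l, -, hl⟩ := hx'
      rcases lt_trichotomy l k with hlk | hlk | hlk
      · have h1 := hz6 k _ (hσ k) _ (mz l k hlk)
        exact h1 ((hG _ (hz2 l _ (hσ l))).anti (Nat.zero_le _) hl)
      · subst hlk
        exact hz7 l _ (hσ l) ((hG _ (hz2 l _ (hσ l))).anti (Nat.zero_le _) hl)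
      · have h1 := hW l _ (mz' k l hlk)
        exact disjoint_left.1 h1 ((hG _ (hz5 k _ (hσ k))).mem_self 0) hl

/-- A recursion principle. -/
theorem exists_rec {α : Type} [LinearOrder α] [WellFoundedLT α] {β : Type} [Inhabited β]
    (R : α → (α → β) → β → Prop)
    (hloc : ∀ x F F' v, (∀ y, y < x → F y = F' y) → R x F v → R x F' v)
    (hex : ∀ x F, (∀ y, y < x → R y F (F y)) → ∃ v, R x F v) :
    ∃ F : α → β, ∀ x, R x F (F x) := by
  classical
  let G : ∀ x : α, (∀ y, y < x → β) → α → β := fun x g y => if h : y < x then g y h else default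
  let F : α → β := (wellFounded_lt (α := α)).fix (fun x g =>
    if h : ∃ v, R x (G x g) v then h.choose else default)
  have hF : ∀ x, F x = if h : ∃ v, R x (G x (fun y _ => F y)) v then h.choose else default := by
    intro x
    exact WellFounded.fix_eq _ _ x
  have hGF : ∀ x y, y < x → G x (fun y _ => F y) y = F y := by
    intro x y hy
    simp [G, hy]
  refine ⟨F, fun x => ?_⟩
  induction x using WellFoundedLT.induction with
  | _ x ih =>
    have h1 : ∃ v, R x (G x (fun y _ => F y)) v := by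
      obtain ⟨v, hv⟩ := hex x F ih
      exact ⟨v, hloc x F _ v (fun y hy => (hGF x y hy).symm) hv⟩
    have h2 : F x = h1.choose := by rw [hF x, dif_pos h1]
    rw [h2]
    exact hloc x _ F _ (fun y hy => hGF x y hy) h1.choose_spec

end Pool.Agent.Lib.MP_4fd693_gt.Dia
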