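import Pool.Agent.Lib.MP_4fd693_gt.ForceDefs
import Pool.Agent.Lib.MP_4fd693_gt.DiaFinal

/-!
# The poset `Rows Ω` forces diamond
-/

set_option autoImplicit false

open Pool.Agent.Lib.MP_77d395_lc (SetName fAll fEx fIff)
open Pool.Agent.Lib.MP_034dba_lc (fCheck fAnd fImp fNot fFun fCtbl)
open Set

namespace Pool.Agent.Lib.MP_4fd693_gt

namespace Rows

variable {Ω : Type}

/-- the empty condition -/
def empty : Rows Ω := ⟨fun _ => none, by simp⟩

/-- extend a condition at a free place -/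
theorem exists_insert (q : Rows Ω) (a : Ω) (T : Set Ω) (hq : q.f a = none) :
    ∃ q' ≤ q, q'.f a = some T := by
  classical
  refine ⟨⟨fun b => if b = a then some T else q.f b, ?_⟩, ?_, by simp⟩
  · refine (q.ctbl.union (Set.countable_singleton a)).mono ?_
    intro b hb
    by_cases h : b = a
    · right; exact h
    · left
      simpa [h] using hb
  · intro b s hb
    have : b ≠ a := by
      rintro rfl
      rw [hq] at hb
      cases hb
    simpa [this] using hb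

theorem anti (s : ℕ → Rows Ω) (hs : ∀ n, s (n + 1) ≤ s n) {m n : ℕ} (hmn : m ≤ n) :
    s n ≤ s m := by
  induction n, hmn using Nat.le_induction with
  | base => exact le_rfl
  | succ n _ ih => exact (hs n).trans ih

/-- the poset is countably closed -/
theorem exists_lower (p : ℕ → Rows Ω) (hp : ∀ n, p (n + 1) ≤ p n) :
    ∃ q, (∀ n, q ≤ p n) ∧ ∀ a, q.f a ≠ none → ∃ n, (p n).f a ≠ none := by
  classical
  refine ⟨⟨fun a => if h : ∃ n, (p n).f a ≠ none then (p h.choose).f a else none, ?_⟩, ?_, ?_⟩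
  · refine (Set.countable_iUnion fun n => (p n).ctbl).mono ?_
    intro a ha
    by_cases h : ∃ n, (p n).f a ≠ none
    · obtain ⟨n, hn⟩ := h
      exact Set.mem_iUnion.2 ⟨n, hn⟩
    · exact absurd (dif_neg h) ha
  · intro n a r hr
    have h : ∃ n, (p n).f a ≠ none := ⟨n, by rw [hr]; simp⟩
    change (if h : ∃ n, (p n).f a ≠ none then (p h.choose).f a else none) = some r
    rw [dif_pos h]
    have h1 := h.choose_spec
    obtain ⟨s, hs⟩ := Option.ne_none_iff_exists'.1 h1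
    rcases le_total h.choose n with h2 | h2
    · have h3 := anti p hp h2 a s hs
      rw [hr] at h3
      rw [hs, h3]
    · exact anti p hp h2 a r hr
  · intro a ha
    by_contra h
    exact ha (dif_neg h)

/-- countably many statements about a name can be decided -/
theorem exists_decide {X : Type} (x : SetName (Rows Ω) X) (g : ℕ → X) (p : Rows Ω) :
    ∃ q ≤ p, ∀ n, x.mem (g n) q ∨ ∀ q' ≤ q, ¬ x.mem (g n) q' := by
  classical
  have hdec : ∀ (n : ℕ) (p : Rows Ω), ∃ q ≤ p, x.mem (g n) q ∨ ∀ q' ≤ q, ¬ x.mem (g n) q' := by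
    intro n p
    by_cases h : ∃ q ≤ p, x.mem (g n) q
    · obtain ⟨q, hq, h⟩ := h
      exact ⟨q, hq, Or.inl h⟩
    · push Not at h
      exact ⟨p, le_rfl, Or.inr h⟩
  choose d hd1 hd2 using hdec
  let s : ℕ → Rows Ω := fun n => Nat.rec p (fun n q => d n q) n
  have hs : ∀ n, s (n + 1) = d n (s n) := fun n => rfl
  obtain ⟨q, hq, -⟩ := exists_lower s (fun n => by rw [hs]; exact hd1 _ _)
  refine ⟨q, hq 0, fun n => ?_⟩
  have h1 := hd2 n (s n)
  rw [← hs] at h1
  rcases h1 with h1 | h1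
  · exact Or.inl (x.mono _ _ _ (hq (n + 1)) h1)
  · exact Or.inr fun q' hq' => h1 q' (hq'.trans (hq (n + 1)))

/-- no condition forces that `Ω` is countable -/
theorem not_ctbl [Uncountable Ω] (p : Rows Ω) : fNot (fCtbl (Rows Ω) Ω) p := by
  classical
  intro p1 hp1 h
  obtain ⟨p2, hp2, g, ⟨hg1, hg2⟩, hg3⟩ := h p1 le_rfl
  -- decide the values
  have hval : ∀ (n : ℕ) (q : Rows Ω), ∃ q' ≤ q, q ≤ p2 → ∃ b, g.mem (n, b) q' := by
    intro n q
    by_cases hq : q ≤ p2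
    · obtain ⟨r, hr, b, hb⟩ := hg1 n q hq
      exact ⟨r, hr, fun _ => ⟨b, hb⟩⟩
    · exact ⟨q, le_rfl, fun h => absurd h hq⟩
  choose d hd1 hd2 using hval
  let s : ℕ → Rows Ω := fun n => Nat.rec p2 (fun n q => d n q) n
  have hs : ∀ n, s (n + 1) = d n (s n) := fun n => rfl
  have hsd : ∀ n, s (n + 1) ≤ s n := fun n => by rw [hs]; exact hd1 _ _
  have hsp : ∀ n, s n ≤ p2 := fun n => anti s hsd (Nat.zero_le n)
  obtain ⟨q, hq, -⟩ := exists_lower s hsd
  have hb : ∀ n, ∃ b, g.mem (n, b) q := by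
    intro n
    obtain ⟨b, hb⟩ := hd2 n (s n) (hsp n)
    exact ⟨b, g.mono _ _ _ (hq (n + 1)) hb⟩
  choose b hb using hb
  obtain ⟨c, hc⟩ : ∃ c, c ∉ Set.range b := by
    by_contra hcon
    push Not at hcon
    have h1 : (Set.univ : Set Ω).Countable :=
      (Set.countable_range b).mono fun x _ => hcon x
    exact Set.not_countable_univ h1
  obtain ⟨r, hr, n, hn⟩ := hg3 c q (hq 0)
  have h1 := hg2 n c (b n) r (hr.trans (hq 0)) hn r le_rfl (g.mono _ _ _ hr (hb n))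
  exact hc ⟨n, h1.symm⟩

/-- the generic sequence -/
def gen : SetName (Rows Ω) (Ω × Ω) where
  mem a q := ∃ r, q.f a.1 = some r ∧ a.2 ∈ r
  mono := fun a p q hq ⟨r, h1, h2⟩ => ⟨r, hq _ _ h1, h2⟩
  dense := by
    rintro ⟨a, b⟩ p h
    cases hc : p.f a with
    | none =>
      obtain ⟨q, hq, h'⟩ := exists_insert p a ∅ hc
      obtain ⟨q', hq', r, h1, h2⟩ := h q hq
      have := hq' _ _ h'
      rw [this] at h1
      cases h1
      exact absurd h2 (Set.notMem_empty _)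
    | some r =>
      obtain ⟨q, hq, r', h1, h2⟩ := h p le_rfl
      have := hq _ _ hc
      rw [this] at h1
      cases h1
      exact ⟨r, rfl, h2⟩

variable [LinearOrder Ω] [WellFoundedLT Ω]

/-- the least element principle is forced -/
theorem least (p : Rows Ω) (S : SetName (Rows Ω) Ω) (h : (fEx fun a : Ω => S.mem a) p) :
    (fEx fun a : Ω => fAnd (S.mem a) (fAll fun b : Ω => fImp (S.mem b)
      (fCheck (Rows Ω) (a ≤ b)))) p := by
  intro q hq
  obtain ⟨r, hr, a, ha⟩ := h q hq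
  have hne : {a : Ω | ∃ r ≤ q, S.mem a r}.Nonempty := ⟨a, r, hr, ha⟩
  obtain ⟨r0, hr0, ha0⟩ := (wellFounded_lt (α := Ω)).min_mem _ hne
  refine ⟨r0, hr0, _, ha0, fun b r' hr' hb => ?_⟩
  by_contra hcon
  have h1 : b < (wellFounded_lt (α := Ω)).min _ hne := not_le.1 hcon
  exact (wellFounded_lt (α := Ω)).not_lt_min _
    (show b ∈ {a : Ω | ∃ r ≤ q, S.mem a r} from ⟨r', hr'.trans hr0, hb⟩) h1

variable (hc : ∀ x : Ω, (Iio x).Countable)
include hc

omit [WellFoundedLT Ω] in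
theorem segment (p : Rows Ω) (a : Ω) : (fEx fun g : SetName (Rows Ω) (ℕ × Ω) => fAnd (fFun g)
    (fAll fun b : Ω => fImp (fCheck (Rows Ω) (b < a)) (fEx fun n : ℕ => g.mem (n, b)))) p := by
  have h1 : (insert a (Iio a)).Countable := (hc a).insert a
  obtain ⟨g, hg⟩ := h1.exists_eq_range ⟨a, Set.mem_insert _ _⟩
  intro q hq
  refine ⟨q, le_rfl, ⟨fun z _ => g z.1 = z.2, fun _ _ _ _ h => h, ?_⟩, ⟨?_, ?_⟩, ?_⟩
  · intro z p h
    obtain ⟨_, _, h⟩ := h p le_rfl
    exact h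
  · intro n r hr
    exact ⟨r, le_rfl, g n, rfl⟩
  · intro n b c r _ h1 r' _ h2
    exact h1.symm.trans h2
  · intro b r _ hb r' hr'
    have h2 : b ∈ Set.range g := by
      rw [← hg]; exact Set.mem_insert_of_mem _ hb
    obtain ⟨n, hn⟩ := h2
    exact ⟨r', le_rfl, n, hn⟩

/-- The main step. -/
theorem guess [Uncountable Ω] (q q1 : Rows Ω) (hq1 : q1 ≤ q) (S C : SetName (Rows Ω) Ω)
    (hC : fClub C q) : ∃ r ≤ q1, ∃ a : Ω, C.mem a r ∧
      ∀ b, b < a → ∀ r' ≤ r, (S.mem b r' ↔ (gen (Ω := Ω)).mem (a, b) r') := by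
  classical
  obtain ⟨hC1, hC2⟩ := hC
  -- one step
  have step : ∀ (s : Rows Ω) (a : Ω), ∃ (s' : Rows Ω) (c a' : Ω), s ≤ q →
      s' ≤ s ∧ a < c ∧ C.mem c s' ∧ c < a' ∧ (∀ x, s'.f x ≠ none → x < a') ∧
      ∀ b, b ≤ a → S.mem b s' ∨ ∀ t ≤ s', ¬ S.mem b t := by
    intro s a
    by_cases hs : s ≤ q
    · obtain ⟨s1, hs1, c, hc1, hac⟩ := hC1 a s hs
      have h1 : (Iic a).Countable := by
        rw [← Set.Iio_union_right]
        exact (hc a).union (countable_singleton a)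
      obtain ⟨g, hg⟩ := h1.exists_eq_range ⟨a, le_rfl⟩
      obtain ⟨s2, hs2, hd⟩ := exists_decide S g s1
      obtain ⟨a', ha'⟩ := Dia.exists_ub hc (s2.ctbl.insert c)
      refine ⟨s2, c, a', fun _ => ⟨hs2.trans hs1, hac, C.mono _ _ _ hs2 hc1,
        ha' c (Set.mem_insert _ _), fun x hx => ha' x (Set.mem_insert_of_mem _ hx), ?_⟩⟩
      intro b hb
      have h2 : b ∈ Set.range g := by rw [← hg]; exact hb
      obtain ⟨n, rfl⟩ := h2
      exact hd n
    · exact ⟨s, a, a, fun h => absurd h hs⟩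
  choose n1 n2 n3 hn using step
  have a0 : Nonempty Ω := by
    by_contra hcon
    rw [not_nonempty_iff] at hcon
    exact not_countable (α := Ω) inferInstance
  obtain ⟨a0⟩ := a0
  let st : ℕ → Rows Ω × Ω := fun n => Nat.rec (q1, a0) (fun _ z => (n1 z.1 z.2, n3 z.1 z.2)) n
  let s : ℕ → Rows Ω := fun n => (st n).1
  let a : ℕ → Ω := fun n => (st n).2
  let c : ℕ → Ω := fun n => n2 (s n) (a n)
  have hs1 : ∀ n, s (n + 1) = n1 (s n) (a n) := fun n => rfl
  have ha1 : ∀ n, a (n + 1) = n3 (s n) (a n) := fun n => rfl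
  have hsq : ∀ n, s n ≤ q := by
    intro n
    induction n with
    | zero => exact hq1
    | succ n ih => rw [hs1]; exact (hn (s n) (a n) ih).1.trans ih
  have hsd : ∀ n, s (n + 1) ≤ s n := fun n => by rw [hs1]; exact (hn _ _ (hsq n)).1
  have hac : ∀ n, a n < c n := fun n => (hn _ _ (hsq n)).2.1
  have hcC : ∀ n, C.mem (c n) (s (n + 1)) := fun n => (hn _ _ (hsq n)).2.2.1
  have hca : ∀ n, c n < a (n + 1) := fun n => (hn _ _ (hsq n)).2.2.2.1
  have hdom : ∀ n x, (s (n + 1)).f x ≠ none → x < a (n + 1) := fun n => (hn _ _ (hsq n)).2.2.2.2.1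
  have hdec : ∀ n b, b ≤ a n → S.mem b (s (n + 1)) ∨ ∀ t ≤ s (n + 1), ¬ S.mem b t :=
    fun n => (hn _ _ (hsq n)).2.2.2.2.2
  obtain ⟨u, hu1, hu2⟩ := exists_lower s hsd
  -- least upper bound
  obtain ⟨B, hB⟩ := Dia.exists_ub hc (countable_range a)
  have hne : {y : Ω | ∀ n, a n < y}.Nonempty := ⟨B, fun n => hB _ (mem_range_self n)⟩
  obtain ⟨α, hα⟩ : ∃ α, α = (wellFounded_lt (α := Ω)).min _ hne := ⟨_, rfl⟩
  have hα1 : ∀ n, a n < α := by
    rw [hα]; exact (wellFounded_lt (α := Ω)).min_mem _ hne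
  have hα2 : ∀ y, y < α → ∃ n, y ≤ a n := by
    intro y hy
    by_contra hcon
    push Not at hcon
    rw [hα] at hy
    exact (wellFounded_lt (α := Ω)).not_lt_min _ (show y ∈ {y : Ω | ∀ n, a n < y} from hcon) hy
  have huα : u.f α = none := by
    by_contra hcon
    obtain ⟨n, hn'⟩ := hu2 α hcon
    obtain ⟨t, ht⟩ := Option.ne_none_iff_exists'.1 hn'
    have h1 : (s (n + 1)).f α ≠ none := by rw [hsd n α t ht]; simp
    exact absurd (hdom n α h1) (not_lt.2 (hα1 (n + 1)).le)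
  obtain ⟨r, hr, hrα⟩ := exists_insert u α {b | S.mem b u} huα
  have hrs : ∀ n, r ≤ s n := fun n => hr.trans (hu1 n)
  refine ⟨r, hrs 0, α, ?_, ?_⟩
  · refine hC2 α r ((hrs 0).trans hq1) ⟨a 0, hα1 0⟩ r le_rfl ?_
    intro b r1 hr1 hb r2 hr2
    obtain ⟨n, hbn⟩ := hα2 b hb
    exact ⟨r2, le_rfl, c n, C.mono _ _ _ ((hr2.trans hr1).trans (hrs (n + 1))) (hcC n),
      hbn.trans_lt (hac n), (hca n).trans (hα1 (n + 1))⟩
  · intro b hb r' hr'
    obtain ⟨n, hbn⟩ := hα2 b hb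
    have h1 : (gen (Ω := Ω)).mem (α, b) r' ↔ S.mem b u := by
      constructor
      · rintro ⟨t, ht, hbt⟩
        have ht' : r'.f α = some t := ht
        rw [hr' α _ hrα] at ht'
        cases ht'
        exact hbt
      · intro h
        exact ⟨_, hr' α _ hrα, h⟩
    rw [h1]
    rcases hdec n b hbn with h2 | h2
    · exact iff_of_true (S.mono _ _ _ (hr'.trans (hrs (n + 1))) h2) (S.mono _ _ _ (hu1 (n + 1)) h2)
    · exact iff_of_false (h2 r' (hr'.trans (hrs (n + 1)))) (h2 u (hu1 (n + 1)))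

/-- Every condition forces diamond on `Ω`. -/
theorem forces [Uncountable Ω] (p : Rows Ω) : fDiaOn (Rows Ω) Ω p := by
  refine ⟨fun S q _ h => least q S h, fun a => segment hc p a, not_ctbl p, ?_⟩
  intro q hq
  refine ⟨q, le_rfl, gen, fun S C q1 hq1 hC q2 hq2 => ?_⟩
  obtain ⟨r, hr, a, ha, hg⟩ := guess hc q1 q2 hq2 S C hC
  refine ⟨r, hr, a, ha, fun b r1 hr1 hb r2 hr2 => hg b hb r2 (hr2.trans hr1)⟩

end Rows

/-- The compactum from diamond on `Ω`. -/
theorem of_diaOn {Ω : Type} [LinearOrder Ω] (hD : DiaOn Ω) :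
    ∃ (X : Type) (_ : TopologicalSpace X), T2Space X ∧
      CompactSpace X ∧ WeaklyFirstCountable X ∧ ∃ s : Set X, ¬ AlphaRealcompact s := by
  obtain ⟨hD1, hD2, hD3, A', hA'⟩ := hD
  have : WellFoundedLT Ω := by
    refine ⟨WellFounded.wellFounded_iff_has_min.2 fun S hS => ?_⟩
    obtain ⟨a, ha, hb⟩ := hD1 S hS
    exact ⟨a, ha, fun b hbS => not_lt.2 (hb b hbS)⟩
  have hc : ∀ x : Ω, (Iio x).Countable := by
    intro x
    obtain ⟨g, hg⟩ := hD2 x
    exact (countable_range g).mono fun b hb => hg b hb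
  have hunc : Uncountable Ω := by
    rw [← not_countable_iff]
    intro hcon
    apply hD3
    rcases isEmpty_or_nonempty Ω with h | h
    · obtain ⟨a, -⟩ := hA' ∅ ∅ ⟨fun a => (h.false a).elim, fun a => (h.false a).elim⟩
      exact (h.false a).elim
    · obtain ⟨g, hg⟩ := exists_surjective_nat Ω
      exact ⟨g, fun a => hg a⟩
  have hA1 : ∀ a, {b | b < a ∧ (a, b) ∈ A'} ⊆ Iio a := fun a b hb => hb.1
  have hA2 : ∀ S : Set Ω, ∀ C, IsClub C → ∃ a ∈ C, S ∩ Iio a = {b | b < a ∧ (a, b) ∈ A'} := by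
    intro S C hC
    obtain ⟨a, ha, hab⟩ := hA' S C hC
    refine ⟨a, ha, ?_⟩
    ext b
    constructor
    · rintro ⟨hb, hba⟩
      exact ⟨hba, (hab b hba).1 hb⟩
    · rintro ⟨hba, hb⟩
      exact ⟨(hab b hba).2 hb, hba⟩
  obtain ⟨h, bs, sc, sc1, sc2, lim, hsc⟩ := Dia.exists_blocks hc
  obtain ⟨F, hF⟩ := Dia.exists_F hc (fun a => {b | b < a ∧ (a, b) ∈ A'}) h bs
  have hG : ∀ y, Dia.Good F h y (F y) := fun y => (hF y).1
  let _ : TopologicalSpace Ω := Dia.topo F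
  have hT : ∀ U : Set Ω, IsOpen U ↔ ∀ x ∈ U, ∃ m, F x m ⊆ U := fun U => Dia.topo_isOpen hG
  have i1 : T2Space Ω := Dia.t2 hG hT
  have i2 : WeaklyLocallyCompactSpace Ω := Dia.wlc hG hT
  obtain ⟨r1, r2, r3, r4⟩ := Dia.compactum (Ω := Ω)
    (fun S hS => Dia.exists_ub hc hS) h F (fun x _ _ hmn => (hG x).anti hmn)
    (fun x m => (hG x).mem_self m) hT (fun C hC => Dia.compact_bdd hG hT hC)
    (fun C hC n hn => Dia.compact_of_bounded hc hA1 hA2 sc1 sc2 lim hsc hF hT hC hn)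
    (fun x => Dia.isOpen_Iio' hG hT x)
    (by
      intro x
      obtain ⟨a, ⟨-, -, ha⟩, hxa⟩ := (Dia.club_limits hc (S := univ)
        (fun x => by obtain ⟨y, hy⟩ := Dia.exists_gt' hc x; exact ⟨y, mem_univ _, hy⟩) x).1 x
      refine ⟨a, hxa, (lim a (fun y hy => ?_)).1⟩
      obtain ⟨t, -, h1, h2⟩ := ha y hy
      exact ⟨t, h1, h2⟩)
    (fun S C hC hSC hS hn => Dia.tail_of_unbounded hc hA1 hA2 sc1 sc2 lim hsc hF hT hC hSC hS hn)
  exact ⟨_, _, r1, r2, r3, r4⟩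

/-- Some well-order with countable initial segments has a non-empty poset all of whose conditions
force diamond. -/
theorem exists_forces : ∃ (Ω : Type) (_ : LinearOrder Ω),
    Nonempty (Rows Ω) ∧ ∀ p : Rows Ω, fDiaOn (Rows Ω) Ω p := by
  have hc : ∀ x : (Cardinal.aleph 1).ord.ToType, (Iio x).Countable := by
    intro x
    have := Cardinal.mk_Iio_toType_ord_lt x
    have h2 : Cardinal.aleph 1 = Order.succ Cardinal.aleph0 := Cardinal.succ_aleph0.symm
    exact Cardinal.mk_le_aleph0_iff.1 (Order.lt_succ_iff.1 (this.trans_eq h2))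
  have hunc : Uncountable (Cardinal.aleph 1).ord.ToType := by
    rw [← Cardinal.aleph0_lt_mk_iff, Cardinal.mk_ord_toType]
    exact Cardinal.aleph0_lt_aleph_one
  exact ⟨(Cardinal.aleph 1).ord.ToType, inferInstance, ⟨Rows.empty⟩, fun p => Rows.forces hc p⟩

end Pool.Agent.Lib.MP_4fd693_gt
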