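import Pool.Agent.Lib.MP_034dba_lc.FDefs
import Pool.Agent.Lib.MP_4fd693_gt.AlphaDefs

/-!
# Diamond on a linear order and the forced statement

The clauses `fAll`, `fEx`, `fIff`, `fCheck`, `fAnd`, `fImp`, `fNot` of the forcing relation, the names
`SetName P X` for subsets of ground model sets and the statements `fFun`, `fCtbl` are those of
`Pool.Agent.Lib.MP_77d395_lc` and `Pool.Agent.Lib.MP_034dba_lc`.
-/

set_option autoImplicit false

open Pool.Agent.Lib.MP_77d395_lc (SetName fAll fEx fIff)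
open Pool.Agent.Lib.MP_034dba_lc (fCheck fAnd fImp fNot fFun fCtbl)

namespace Pool.Agent.Lib.MP_4fd693_gt

/-- `Ω` is a well-order, its initial segments are countable, it is uncountable, and Jensen's diamond
principle holds for it: there is `A ⊆ Ω × Ω` such that for all `S ⊆ Ω` and each closed unbounded
`C ⊆ Ω` some `a ∈ C` satisfies `b ∈ S ↔ (a, b) ∈ A` for all `b < a`. -/
def DiaOn (Ω : Type) [LinearOrder Ω] : Prop :=
  (∀ S : Set Ω, (∃ a, a ∈ S) → ∃ a, a ∈ S ∧ ∀ b, b ∈ S → a ≤ b) ∧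
  (∀ a : Ω, ∃ g : ℕ → Ω, ∀ b, b < a → ∃ n, g n = b) ∧
  (¬ ∃ g : ℕ → Ω, ∀ a, ∃ n, g n = a) ∧
  ∃ A : Set (Ω × Ω), ∀ S C : Set Ω, IsClub C →
    ∃ a, a ∈ C ∧ ∀ b, b < a → (b ∈ S ↔ (a, b) ∈ A)

variable {P : Type} [Preorder P]

/-- `p ⊩ C is closed and unbounded in Ω` (the forcing translation of `IsClub C`) -/
def fClub {Ω : Type} [LinearOrder Ω] (C : SetName P Ω) : P → Prop :=
  fAnd (fAll fun a : Ω => fEx fun c : Ω => fAnd (C.mem c) (fCheck P (a < c)))
    (fAll fun a : Ω => fImp (fCheck P (∃ b, b < a)) (fImp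
      (fAll fun b : Ω => fImp (fCheck P (b < a))
        (fEx fun c : Ω => fAnd (C.mem c) (fCheck P (b < c ∧ c < a)))) (C.mem a)))

/-- `p ⊩ DiaOn Ω` -/
def fDiaOn (P : Type) [Preorder P] (Ω : Type) [LinearOrder Ω] : P → Prop :=
  fAnd (fAll fun S : SetName P Ω => fImp (fEx fun a : Ω => S.mem a)
    (fEx fun a : Ω => fAnd (S.mem a) (fAll fun b : Ω => fImp (S.mem b) (fCheck P (a ≤ b)))))
  (fAnd (fAll fun a : Ω => fEx fun g : SetName P (ℕ × Ω) => fAnd (fFun g)
    (fAll fun b : Ω => fImp (fCheck P (b < a)) (fEx fun n : ℕ => g.mem (n, b))))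
  (fAnd (fNot (fCtbl P Ω))
    (fEx fun A : SetName P (Ω × Ω) => fAll fun S : SetName P Ω => fAll fun C : SetName P Ω =>
      fImp (fClub C) (fEx fun a : Ω => fAnd (C.mem a)
        (fAll fun b : Ω => fImp (fCheck P (b < a)) (fIff (S.mem b) (A.mem (a, b))))))))

/-- The poset of all countable partial functions from `Ω` to the power set of `Ω`, ordered by
reverse inclusion. -/
structure Rows (Ω : Type) where
  f : Ω → Option (Set Ω)
  ctbl : {a | f a ≠ none}.Countable

instance (Ω : Type) : Preorder (Rows Ω) where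
  le q p := ∀ a r, p.f a = some r → q.f a = some r
  le_refl _ _ _ h := h
  le_trans _ _ _ h₁ h₂ a r h := h₁ a r (h₂ a r h)

end Pool.Agent.Lib.MP_4fd693_gt
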