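import Mathlib
import Pool.Agent.Lib.MP_4fd693_gt.Defs
import Pool.Agent.Lib.MP_4fd693_gt.Compactification

/-!
A finite Borel measure on `L.Y` that extends Lebesgue measure and vanishes on compact sets.
-/

open Set Topology MeasureTheory
open scoped ENNReal

namespace Pool.Agent.Lib.MP_4fd693_gt

/-- Every finite Borel measure on `X` is inner regular with respect to compact sets. -/
def RadonSpace (X : Type) [TopologicalSpace X] : Prop :=
  ∀ μ : @Measure X (borel X), μ univ < ⊤ → ∀ S : Set X, MeasurableSet[borel X] S →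
    ∀ r < μ S, ∃ K ⊆ S, IsCompact K ∧ r < μ K

variable {J : Type} [MetricSpace J] (L : Ladder J)

/-- The small sets: covered by countably many sets `cl(A) \ cl_τ(A) ∪ A` with `A` countable. -/
def Ladder.Small (S : Set J) : Prop :=
  ∃ A : ℕ → Set J, (∀ n, (A n).Countable) ∧
    S ⊆ ⋃ n, ({x | x ∈ closure (A n) ∧ L.toY x ∉ closure ((L.ofY : L.Y → J) ⁻¹' (A n))} ∪ A n)

theorem Ladder.Small.mono {L : Ladder J} {S T : Set J} (h : L.Small T) (hST : S ⊆ T) :
    L.Small S := by
  obtain ⟨A, hA, hT⟩ := h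
  exact ⟨A, hA, hST.trans hT⟩

theorem Ladder.Small.iUnion {L : Ladder J} {S : ℕ → Set J} (h : ∀ n, L.Small (S n)) :
    L.Small (⋃ n, S n) := by
  choose A hA hS using h
  refine ⟨fun i => A (Nat.unpair i).1 (Nat.unpair i).2, fun i => hA _ _, ?_⟩
  intro x hx
  obtain ⟨n, hn⟩ := mem_iUnion.mp hx
  obtain ⟨m, hm⟩ := mem_iUnion.mp (hS n hn)
  refine mem_iUnion.mpr ⟨Nat.pair n m, ?_⟩
  beta_reduce
  rw [Nat.unpair_pair]
  exact hm

theorem Ladder.small_countable {S : Set J} (h : S.Countable) : L.Small S :=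
  ⟨fun _ => S, fun _ => h, fun _ hx => mem_iUnion.mpr ⟨0, Or.inr hx⟩⟩

theorem Ladder.small_empty : L.Small ∅ := L.small_countable countable_empty

theorem Ladder.Small.union {L : Ladder J} {S T : Set J} (hS : L.Small S) (hT : L.Small T) :
    L.Small (S ∪ T) := by
  have h : L.Small (⋃ n : ℕ, if n = 0 then S else T) := by
    apply Ladder.Small.iUnion
    intro n
    split_ifs
    · exact hS
    · exact hT
  refine h.mono ?_
  rintro x (hx | hx)
  · exact mem_iUnion.mpr ⟨0, by simpa using hx⟩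
  · exact mem_iUnion.mpr ⟨1, by simpa using hx⟩

theorem Ladder.Good.not_small {L : Ladder J} (hL : L.Good) {P : Set J} (hP : IsClosed P)
    (hu : ¬ P.Countable) : ¬ L.Small P := by
  rintro ⟨A, hA, hPA⟩
  obtain ⟨x, hxP, hxA, hx⟩ := hL.exists_mem_closure A hA P hP hu
  obtain ⟨n, hn⟩ := mem_iUnion.mp (hPA hxP)
  rcases hn with hn | hn
  · exact hn.2 (hx n hn.1)
  · exact hxA n hn

set_option linter.unusedSectionVars false

variable [MeasurableSpace J] [BorelSpace J] (μ : Measure J) [IsFiniteMeasure μ]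

theorem Ladder.Good.measure_diff_small {L : Ladder J} (hL : L.Good)
    (hμ : ∀ S : Set J, S.Countable → μ S = 0) {E : Set J} (hE : L.Small E) :
    μ (univ \ E) = μ univ := by
  refine le_antisymm (measure_mono (subset_univ _)) ?_
  by_contra hlt
  rw [not_le] at hlt
  set H := toMeasurable μ (univ \ E) with hH
  have hHm : MeasurableSet H := measurableSet_toMeasurable _ _
  have hHμ : μ H = μ (univ \ E) := measure_toMeasurable _
  have hsub : univ \ E ⊆ H := subset_toMeasurable _ _
  have hpos : μ (univ \ H) ≠ 0 := by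
    intro h0
    have h1 : μ univ ≤ μ H + μ (univ \ H) := by
      refine le_trans (measure_mono ?_) (measure_union_le _ _)
      intro x _
      by_cases h : x ∈ H
      · exact Or.inl h
      · exact Or.inr ⟨mem_univ _, h⟩
    rw [h0, add_zero, hHμ] at h1
    exact absurd h1 (not_le.mpr hlt)
  obtain ⟨F, hF, hFc, hFμ⟩ := (MeasurableSet.univ.diff hHm).exists_isClosed_lt_add
    (μ := μ) (measure_ne_top _ _) hpos
  have hF0 : μ F ≠ 0 := by
    intro h0
    rw [h0, zero_add] at hFμ
    exact lt_irrefl _ hFμ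
  have hFu : ¬ F.Countable := fun h => hF0 (hμ F h)
  refine hL.not_small hFc hFu (hE.mono ?_)
  intro x hx
  by_contra hxE
  exact (hF hx).2 (hsub ⟨mem_univ _, hxE⟩)

/-- The value of the extended outer measure. -/
noncomputable def Ladder.outerVal (S : Set J) : ℝ≥0∞ :=
  sInf {c | ∃ E, L.Small E ∧ μ (S \ E) = c}

theorem Ladder.outerVal_le {S E : Set J} (hE : L.Small E) : L.outerVal μ S ≤ μ (S \ E) :=
  sInf_le ⟨E, hE, rfl⟩

theorem Ladder.exists_outerVal (S : Set J) : ∃ E, L.Small E ∧ μ (S \ E) = L.outerVal μ S := by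
  obtain ⟨u, -, hlim, hu⟩ := exists_seq_tendsto_sInf
    (S := {c | ∃ E, L.Small E ∧ μ (S \ E) = c}) ⟨_, ∅, L.small_empty, rfl⟩ (OrderBot.bddBelow _)
  choose E hE hEu using hu
  refine ⟨⋃ n, E n, Ladder.Small.iUnion hE, le_antisymm ?_ (L.outerVal_le μ
    (Ladder.Small.iUnion hE))⟩
  refine ge_of_tendsto' hlim (fun n => ?_)
  rw [← hEu n]
  exact measure_mono (sdiff_subset_sdiff_right (subset_iUnion E n))

theorem Ladder.outerVal_mono {S T : Set J} (h : S ⊆ T) : L.outerVal μ S ≤ L.outerVal μ T := by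
  obtain ⟨E, hE, hEv⟩ := L.exists_outerVal μ T
  rw [← hEv]
  exact (L.outerVal_le μ hE).trans (measure_mono (sdiff_subset_sdiff_left h))

/-- The extended outer measure. -/
noncomputable def Ladder.outer : OuterMeasure L.Y where
  measureOf S := L.outerVal μ S
  empty := by
    refine le_antisymm ?_ bot_le
    exact (L.outerVal_le μ (S := (∅ : Set J)) L.small_empty).trans
      ((measure_mono sdiff_subset).trans measure_empty.le)
  mono := fun h => L.outerVal_mono μ h
  iUnion_nat := by
    intro s _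
    choose E hE hEv using fun n => L.exists_outerVal μ (s n)
    have h1 : L.outerVal μ (⋃ i, s i) ≤ μ ((⋃ i, s i) \ ⋃ n, E n) :=
      L.outerVal_le μ (Ladder.Small.iUnion hE)
    refine h1.trans ?_
    have h2 : ((⋃ i, s i : Set J) \ ⋃ n, E n) ⊆ ⋃ i, (s i \ E i : Set J) := by
      rintro x ⟨hx, hxE⟩
      obtain ⟨i, hi⟩ := mem_iUnion.mp hx
      exact mem_iUnion.mpr ⟨i, hi, fun h => hxE (mem_iUnion.mpr ⟨i, h⟩)⟩
    refine (measure_mono h2).trans ((measure_iUnion_le _).trans ?_)
    exact ENNReal.tsum_le_tsum (fun i => (hEv i).le)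

theorem Ladder.outer_apply (S : Set L.Y) : L.outer μ S = L.outerVal μ S := rfl

theorem Ladder.isCaratheodory_closed [SecondCountableTopology J] {C : Set L.Y} (hC : IsClosed C) :
    MeasurableSet[(L.outer μ).caratheodory] C := by
  rw [OuterMeasure.isCaratheodory_iff_le]
  intro t
  -- Euclid-closed approximation
  obtain ⟨A, hAC, hAc, hAcl⟩ := (TopologicalSpace.IsSeparable.of_separableSpace
    (L.toY ⁻¹' C : Set J)).exists_countable_dense_subset
  have hAcl' : (L.toY ⁻¹' C : Set J) ⊆ closure A := hAcl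
  set D : Set J := closure A \ (L.toY ⁻¹' C) with hD
  have hDs : L.Small D := by
    refine ⟨fun _ => A, fun _ => hAc, ?_⟩
    rintro x ⟨hx, hxC⟩
    refine mem_iUnion.mpr ⟨0, Or.inl ⟨hx, fun hcl => hxC ?_⟩⟩
    have h1 : closure ((L.ofY : L.Y → J) ⁻¹' A) ⊆ C := closure_minimal hAC hC
    exact h1 hcl
  obtain ⟨E, hE, hEv⟩ := L.exists_outerVal μ t
  have hE' : L.Small (E ∪ D) := hE.union hDs
  rw [L.outer_apply, L.outer_apply, L.outer_apply, ← hEv]
  have h1 := L.outerVal_le μ (S := (t ∩ C : Set L.Y)) hE'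
  have h2 := L.outerVal_le μ (S := (t \ C : Set L.Y)) hE'
  refine (add_le_add h1 h2).trans ?_
  have hm : MeasurableSet (closure A) := isClosed_closure.measurableSet
  have h3 : ((t ∩ C : Set L.Y) \ (E ∪ D) : Set J) ⊆ ((t : Set J) \ E) ∩ closure A := by
    rintro x ⟨⟨hxt, hxC⟩, hx⟩
    exact ⟨⟨hxt, fun h => hx (Or.inl h)⟩, hAcl' hxC⟩
  have h4 : ((t \ C : Set L.Y) \ (E ∪ D) : Set J) ⊆ ((t : Set J) \ E) \ closure A := by
    rintro x ⟨⟨hxt, hxC⟩, hx⟩
    exact ⟨⟨hxt, fun h => hx (Or.inl h)⟩, fun h => hx (Or.inr ⟨h, hxC⟩)⟩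
  calc μ ((t ∩ C : Set L.Y) \ (E ∪ D) : Set J) + μ ((t \ C : Set L.Y) \ (E ∪ D) : Set J)
      ≤ μ (((t : Set J) \ E) ∩ closure A) + μ (((t : Set J) \ E) \ closure A) :=
        add_le_add (measure_mono h3) (measure_mono h4)
    _ = μ ((t : Set J) \ E) := measure_inter_add_sdiff _ hm

theorem Ladder.borel_le_caratheodory [SecondCountableTopology J] :
    borel L.Y ≤ (L.outer μ).caratheodory := by
  rw [borel_eq_generateFrom_isClosed]
  exact MeasurableSpace.generateFrom_le (fun C hC => L.isCaratheodory_closed μ hC)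

/-- The compactification is not a Radon space. -/
theorem Ladder.Good.not_radon {L : Ladder J} [SecondCountableTopology J] (hL : L.Good)
    (hμ : ∀ S : Set J, S.Countable → μ S = 0) (hμ0 : μ univ ≠ 0) : ¬ RadonSpace L.Z := by
  intro hR
  let _ : MeasurableSpace L.Y := borel L.Y
  have _ : BorelSpace L.Y := ⟨rfl⟩
  let _ : MeasurableSpace L.Z := borel L.Z
  have _ : BorelSpace L.Z := ⟨rfl⟩
  let ν : Measure L.Y := (L.outer μ).toMeasure (L.borel_le_caratheodory μ)
  have hνuniv : ν univ = μ univ := by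
    rw [toMeasure_apply _ _ MeasurableSet.univ, L.outer_apply]
    obtain ⟨E, hE, hEv⟩ := L.exists_outerVal μ (univ : Set J)
    have h1 := hL.measure_diff_small μ hμ hE
    exact hEv.symm.trans h1
  have hν0 : ∀ K : Set L.Y, IsCompact K → ν K = 0 := by
    intro K hK
    rw [toMeasure_apply _ _ hK.isClosed.measurableSet, L.outer_apply]
    refine le_antisymm ?_ bot_le
    have h1 : L.Small (K : Set J) := L.small_countable (L.countable_of_isCompact hK)
    have h2 := L.outerVal_le μ (S := (K : Set J)) h1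
    have h3 : μ ((K : Set J) \ (K : Set J)) ≤ μ (∅ : Set J) :=
      measure_mono (fun x hx => absurd hx.1 hx.2)
    rw [measure_empty] at h3
    exact h2.trans h3
  have hmeas : Measurable L.ι := L.continuous_ι.measurable
  have hfin : Measure.map L.ι ν univ < ⊤ := by
    rw [Measure.map_apply hmeas MeasurableSet.univ, preimage_univ, hνuniv]
    exact measure_lt_top _ _
  have hrange : MeasurableSet (range L.ι) := L.isOpenEmbedding_ι.isOpen_range.measurableSet
  have hpos : 0 < Measure.map L.ι ν (range L.ι) := by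
    rw [Measure.map_apply hmeas hrange, preimage_range, hνuniv]
    exact pos_iff_ne_zero.mpr hμ0
  obtain ⟨K, hKs, hKc, hK⟩ := hR (Measure.map L.ι ν) hfin (range L.ι) hrange 0 hpos
  rw [Measure.map_apply hmeas hKc.isClosed.measurableSet] at hK
  have hpre : IsCompact (L.ι ⁻¹' K) := by
    rw [L.isOpenEmbedding_ι.isInducing.isCompact_iff, image_preimage_eq_of_subset hKs]
    exact hKc
  rw [hν0 _ hpre] at hK
  exact lt_irrefl _ hK

end Pool.Agent.Lib.MP_4fd693_gt
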