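import Mathlib
import Pool.Agent.Lib.MP_4fd693_gt.Defs
import Pool.Agent.Lib.MP_4fd693_gt.Compactification

/-!
The space `L.Y` is not weakly theta-refinable when `L` has property (P).
-/

open Set Topology

namespace Pool.Agent.Lib.MP_4fd693_gt

variable {J : Type} [MetricSpace J] [SecondCountableTopology J] {L : Ladder J}

theorem Ladder.Good.not_sigma_discrete (hL : L.Good) (hJ : ¬ (univ : Set J).Countable)
    (D : ℕ → Set L.Y)
    (hD : ∀ n, ∀ x ∈ D n, ∃ U, IsOpen U ∧ x ∈ U ∧ U ∩ D n ⊆ {x})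
    (hcov : ∀ x, ∃ n, x ∈ D n) : False := by
  have hA : ∀ n, ∃ A : Set J, A ⊆ (L.toY ⁻¹' (D n)) ∧ A.Countable ∧
      (L.toY ⁻¹' (D n)) ⊆ closure A := fun n =>
    (TopologicalSpace.IsSeparable.of_separableSpace
      (L.toY ⁻¹' (D n))).exists_countable_dense_subset
  choose A hAD hAc hAcl using hA
  obtain ⟨x, -, hxA, hx⟩ := hL.exists_mem_closure A hAc univ isClosed_univ hJ
  obtain ⟨n, hn⟩ := hcov (L.toY x)
  have h1 : L.toY x ∈ closure ((L.ofY : L.Y → J) ⁻¹' (A n)) := hx n (hAcl n hn)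
  obtain ⟨U, hU, hxU, hUD⟩ := hD n _ hn
  rw [mem_closure_iff] at h1
  obtain ⟨y, hyU, hyA⟩ := h1 U hU hxU
  have hyD : y ∈ D n := hAD n hyA
  have hyx : y = L.toY x := hUD ⟨hyU, hyD⟩
  rw [hyx] at hyA
  exact hxA n hyA

theorem Ladder.Good.not_weaklyThetaRefinable (hL : L.Good) (hJ : ¬ (univ : Set J).Countable) :
    ¬ WeaklyThetaRefinable L.Y := by
  intro h
  obtain ⟨D, hD, hcov⟩ := sigma_discrete_of_weaklyThetaRefinable
    (fun x => ⟨L.N x 1, L.isOpen_N x one_pos, L.mem_N_self x 1, L.countable_N x 1⟩) h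
  exact hL.not_sigma_discrete hJ D hD hcov

/-- The compactification has a subspace that is not weakly theta-refinable. -/
theorem Ladder.Good.exists_subspace (hL : L.Good) (hJ : ¬ (univ : Set J).Countable) :
    ∃ s : Set L.Z, ¬ WeaklyThetaRefinable s := by
  refine ⟨range L.ι, fun h => hL.not_weaklyThetaRefinable hJ ?_⟩
  exact h.of_homeomorph L.isOpenEmbedding_ι.toIsEmbedding.toHomeomorph.symm

theorem exists_good_unitInterval : ∃ L : Ladder unitInterval, L.Good :=
  exists_ladder unitInterval (Cardinal.mk_Icc_real zero_lt_one)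

theorem not_countable_unitInterval : ¬ (univ : Set unitInterval).Countable := by
  rw [← Cardinal.le_aleph0_iff_set_countable, Cardinal.mk_univ,
    show Cardinal.mk unitInterval = Cardinal.continuum from Cardinal.mk_Icc_real zero_lt_one]
  exact not_le.mpr Cardinal.aleph0_lt_continuum

end Pool.Agent.Lib.MP_4fd693_gt
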